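import Pool.Agent.IST4.Cross

/-!
# ISO by rows: values and relations of the coefficients (helper4)

* **`cf_app`**: `|F (x :: xs) - PL w M (x :: xs) (cf F)| ≤ (n+1) (1+D)^(n+1) η` for a wide `x` and `xs ⊆ K`;
* `PL_two`, **`coef_rel`**: a relation between values becomes a relation between coefficients;
* **`cf_ann`**, **`cf_fus`**.
-/

set_option autoImplicit false

noncomputable section

open Complex Filter Topology Set
open Pool.Agent.PB.Rec (EL EL_coef EL_add EL_sub EL_le EL_inj)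

namespace IST4

variable {w : ℝ} {M : ℕ} {R h η B : ℝ} {K : Set ℂ} {n : ℕ} {F : List ℂ → ℂ}
  {lam : ℤ → Fin (2 * M + 1) → ℂ}

/-- the constant of one row -/
def DD (w : ℝ) (M : ℕ) (kap : ℝ) : ℝ := (2 * M + 1) * Real.exp (|w| * M) * kap

theorem DD_nonneg (w : ℝ) (M : ℕ) {kap : ℝ} (h0 : 0 ≤ kap) : 0 ≤ DD w M kap := by
  unfold DD
  positivity

/-- **the values** -/
theorem cf_app (hh : 0 ≤ h) (hη : 0 ≤ η)
    (hlam : ∀ a : ℤ → ℂ, ∀ k ∈ ZI M, ∑ j, lam k j * EL w M a (nd M j) = a k)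
    {kap : ℝ} (hkap : ∀ k ∈ ZI M, ∑ j, ‖lam k j‖ ≤ kap) (h0 : 0 ≤ kap) (hR : 0 ≤ R)
    (hK : ∀ t : ℝ, |t| ≤ h + 1 → I * (t : ℂ) ∈ K) (xs : List ℂ) : ∀ {F : List ℂ → ℂ},
    Good w M R h η B K xs.length F → (∀ y ∈ xs, |y.re| ≤ R ∧ |y.im| ≤ 1) → (∀ y ∈ xs.tail, y ∈ K) →
    ‖F xs - PL w M xs (cf w M lam F)‖ ≤ xs.length * (1 + DD w M kap) ^ xs.length * η := by
  induction xs with
  | nil =>
    intro F _ _ _
    rw [PL_nil, cf_eq F (by simp)]
    simp [CF]
  | cons x xs ih =>
    intro F hF hx hxK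
    have hD := DD_nonneg w M h0
    set F0 : Fin (2 * M + 1) → List ℂ → ℂ := fun j xs => F ((nd M j + I * ((0 : ℝ) : ℂ)) :: xs) with hF0
    have hG0 : ∀ j, Good w M R h η B K xs.length (F0 j) := by
      intro j
      have h2 : |(j : ℝ) / (2 * M + 1) + (0 : ℝ)| ≤ h + 1 := nd_abs (by simpa using hh) j
      have := Good.cons (n := xs.length) (by simpa using hF) h2 (hK _ h2)
      rw [← nd_eq] at this
      exact this
    have hxs : ∀ y ∈ xs, y ∈ K := by simpa using hxK
    have hxs' : ∀ y ∈ xs.tail, y ∈ K := fun y hy => hxs y (List.mem_of_mem_tail hy)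
    have hIH : ∀ j, ‖F0 j xs - PL w M xs (cf w M lam (F0 j))‖ ≤ xs.length * (1 + DD w M kap) ^ xs.length * η :=
      fun j => ih (hG0 j) (fun y hy => hx y (List.mem_cons_of_mem _ hy)) hxs'
    obtain ⟨a, ha⟩ := hF.ex xs (by simp) hxs
    have hx0 := hx x List.mem_cons_self
    have ha0 := ha x hx0.1 (by linarith [hx0.2])
    have hg : ∀ t : ℝ, |t| ≤ h + 1 → ‖F (I * (t : ℂ) :: xs) - EL w M a (I * (t : ℂ))‖ ≤ η := fun t ht =>
      ha _ (by simpa using hR) (by simpa using ht)
    -- the coefficients in the first row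
    have hb : ∀ k ∈ ZI M, PL w M xs (fun ks => cf w M lam F (k :: ks)) =
        ∑ j, lam k j * PL w M xs (cf w M lam (F0 j)) := by
      intro k hk
      rw [← PL_sum]
      refine PL_congr w M xs fun ks _ h2 => ?_
      rw [cf_eq F (by
        intro k' hk'
        rcases List.mem_cons.1 hk' with rfl | h'
        · exact hk
        · exact h2 k' h'), List.map_cons, CF]
      refine Finset.sum_congr rfl fun j _ => ?_
      rw [cf_eq (F0 j) h2]
      simp [lo, hF0]
    have hbd : ∀ k ∈ ZI M, ‖a k - PL w M xs (fun ks => cf w M lam F (k :: ks))‖ ≤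
        kap * (xs.length * (1 + DD w M kap) ^ xs.length * η + η) := by
      intro k hk
      have g0 := one (g := fun x => F (x :: xs)) hlam hkap hη hg hk (y := 0) (by simpa using hh) (by simp)
      rw [hb k hk]
      have e : a k - ∑ j, lam k j * PL w M xs (cf w M lam (F0 j)) =
          (∑ j, lam k j * (F0 j xs - PL w M xs (cf w M lam (F0 j)))) -
          ((∑ j, cexp ((w * k * (0 : ℝ) : ℝ) : ℂ) * lam k j * F ((nd M j + I * ((0 : ℝ) : ℂ)) :: xs)) - a k) := by
        simp only [mul_sub, Finset.sum_sub_distrib, hF0]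
        simp
      rw [e]
      refine (norm_sub_le _ _).trans ?_
      have g1 : ‖∑ j, lam k j * (F0 j xs - PL w M xs (cf w M lam (F0 j)))‖ ≤
          kap * (xs.length * (1 + DD w M kap) ^ xs.length * η) := by
        refine (norm_sum_le _ _).trans ?_
        calc _ ≤ ∑ j, ‖lam k j‖ * (xs.length * (1 + DD w M kap) ^ xs.length * η) := by
              refine Finset.sum_le_sum fun j _ => ?_
              rw [norm_mul]
              exact mul_le_mul_of_nonneg_left (hIH j) (norm_nonneg _)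
          _ = (∑ j, ‖lam k j‖) * (xs.length * (1 + DD w M kap) ^ xs.length * η) := by rw [Finset.sum_mul]
          _ ≤ _ := mul_le_mul_of_nonneg_right (hkap k hk) (by positivity)
      calc _ ≤ kap * (xs.length * (1 + DD w M kap) ^ xs.length * η) + kap * η := add_le_add g1 g0
        _ = _ := by ring
    have e2 : F (x :: xs) - PL w M (x :: xs) (cf w M lam F) = (F (x :: xs) - EL w M a x) +
        EL w M (fun k => a k - PL w M xs (fun ks => cf w M lam F (k :: ks))) x := by
      rw [EL_sub, PL_cons]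
      ring
    rw [e2]
    refine (norm_add_le _ _).trans ?_
    have g3 := EL_le (w := w) (K := M) (a := fun k => a k - PL w M xs (fun ks => cf w M lam F (k :: ks))) hbd x
    have g4 : (2 * (M : ℝ) + 1) * Real.exp (|w| * M * |x.im|) ≤ (2 * M + 1) * Real.exp (|w| * M) := by
      have : |w| * M * |x.im| ≤ |w| * M := by
        have := hx0.2
        have h5 : 0 ≤ |w| * (M : ℝ) := by positivity
        nlinarith
      gcongr
    have g5 : ‖EL w M (fun k => a k - PL w M xs (fun ks => cf w M lam F (k :: ks))) x‖ ≤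
        DD w M kap * (xs.length * (1 + DD w M kap) ^ xs.length * η + η) := by
      refine g3.trans ?_
      have : 0 ≤ kap * (xs.length * (1 + DD w M kap) ^ xs.length * η + η) := by positivity
      calc _ ≤ (2 * (M : ℝ) + 1) * Real.exp (|w| * M) * (kap * (xs.length * (1 + DD w M kap) ^ xs.length * η + η)) :=
            mul_le_mul_of_nonneg_right g4 this
        _ = _ := by unfold DD; ring
    have hpow : 1 ≤ (1 + DD w M kap) ^ xs.length := one_le_pow₀ (by linarith)
    calc _ ≤ η + DD w M kap * (xs.length * (1 + DD w M kap) ^ xs.length * η + η) := add_le_add ha0 g5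
      _ = (1 + DD w M kap) * 1 * η + DD w M kap * (xs.length * (1 + DD w M kap) ^ xs.length) * η := by ring
      _ ≤ (1 + DD w M kap) * (1 + DD w M kap) ^ xs.length * η +
          (1 + DD w M kap) * (xs.length * (1 + DD w M kap) ^ xs.length) * η := by
          gcongr
          linarith
      _ = _ := by
          rw [List.length_cons, pow_succ]
          push_cast
          ring

/-- reindexing of a double sum by the total exponent -/
theorem sum_two (M : ℕ) (f : ℤ → ℤ → ℂ) (hf : ∀ k l, l ∉ ZI M → f k l = 0) :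
    ∑ k ∈ ZI M, ∑ l ∈ ZI M, f k l = ∑ m ∈ ZI (2 * M), ∑ k ∈ ZI M, f k (m - k) := by
  rw [Finset.sum_comm (s := ZI (2 * M))]
  refine Finset.sum_congr rfl fun k hk => ?_
  have h1 : ∑ l ∈ ZI M, f k l = ∑ m ∈ (ZI M).map (addRightEmbedding k), f k (m - k) := by
    rw [Finset.sum_map]
    refine Finset.sum_congr rfl fun l _ => ?_
    simp
  rw [h1]
  refine Finset.sum_subset ?_ ?_
  · intro m hm
    rw [Finset.mem_map] at hm
    obtain ⟨l, hl, rfl⟩ := hm
    unfold ZI at *
    rw [Finset.mem_Icc] at *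
    simp only [addRightEmbedding_apply]
    push_cast
    omega
  · intro m _ hm2
    refine hf k _ fun hm3 => hm2 ?_
    rw [Finset.mem_map]
    exact ⟨m - k, hm3, by simp⟩

theorem EL_zero_ext {M' : ℕ} (hM : M ≤ M') {a : ℤ → ℂ} (ha : ∀ k, k ∉ ZI M → a k = 0) (x : ℂ) :
    EL w M a x = EL w M' a x := by
  unfold EL
  refine Finset.sum_subset ?_ ?_
  · intro k hk
    rw [Finset.mem_Icc] at *
    omega
  · intro k _ hk
    rw [ha k hk, zero_mul]

/-- two rows at `x + α`, `x` -/
theorem PL_two {c : List ℤ → ℂ} (hc : ∀ k l ks, l ∉ ZI M → c (k :: l :: ks) = 0) (x α : ℂ) (xs : List ℂ) :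
    PL w M ((x + α) :: x :: xs) c = EL w (2 * M)
      (fun m => PL w M xs (fun ks => ∑ k ∈ ZI M, cexp (I * w * k * α) * c (k :: (m - k) :: ks))) x := by
  have h1 : PL w M ((x + α) :: x :: xs) c = ∑ k ∈ ZI M, ∑ l ∈ ZI M,
      cexp (I * w * k * α) * PL w M xs (fun ks => c (k :: l :: ks)) * cexp (I * w * ((k + l : ℤ) : ℂ) * x) := by
    simp only [PL, Finset.sum_mul]
    refine Finset.sum_congr rfl fun k _ => Finset.sum_congr rfl fun l _ => ?_
    have : cexp (I * w * k * (x + α)) = cexp (I * w * k * α) * cexp (I * w * k * x) := by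
      rw [← Complex.exp_add]
      congr 1
      ring
    have h2 : cexp (I * w * ((k + l : ℤ) : ℂ) * x) = cexp (I * w * k * x) * cexp (I * w * l * x) := by
      rw [← Complex.exp_add]
      congr 1
      push_cast
      ring
    rw [this, h2]
    ring
  rw [h1, sum_two M (fun k l => cexp (I * w * k * α) * PL w M xs (fun ks => c (k :: l :: ks)) *
    cexp (I * w * ((k + l : ℤ) : ℂ) * x)) (fun k l hl => ?_)]
  · unfold EL
    refine Finset.sum_congr rfl fun m _ => ?_
    beta_reduce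
    rw [PL_sum w M xs (ZI M) (fun k => cexp (I * w * k * α)) (fun k ks => c (k :: (m - k) :: ks)),
      Finset.sum_mul]
    refine Finset.sum_congr rfl fun k _ => ?_
    have : k + (m - k) = m := by ring
    rw [this]
  · have : PL w M xs (fun ks => c (k :: l :: ks)) = 0 := by
      have h3 := PL_congr w M xs (c := fun ks => c (k :: l :: ks)) (d := fun ks => 0 * c ks)
        (fun ks _ _ => by rw [hc k l ks hl, zero_mul])
      rw [h3, PL_const, zero_mul]
    rw [this]
    ring

/-- **relations of values give relations of coefficients** -/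
theorem coef_rel (hw : 0 < w) (M : ℕ) (n : ℕ) : ∃ V : ℝ, 0 < V ∧ ∀ (c : List ℤ → ℂ) (e : ℤ → List ℤ → ℂ)
    (α : ℂ) (δ : ℝ), (∀ k l ks, l ∉ ZI M → c (k :: l :: ks) = 0) → ∀ n' ≤ n,
    (∀ t ∈ Icc (0 : ℝ) 1, ∀ ts : List ℝ, ts.length = n' → (∀ s ∈ ts, s ∈ Icc (0 : ℝ) 1) →
      ‖PL w M ((I * (t : ℂ) + α) :: (I * (t : ℂ)) :: ts.map fun s : ℝ => I * (s : ℂ)) c -
        EL w (2 * M) (fun m => PL w M (ts.map fun s : ℝ => I * (s : ℂ)) (e m)) (I * (t : ℂ))‖ ≤ δ) →
    ∀ m ∈ ZI (2 * M), ∀ ks : List ℤ, ks.length = n' → (∀ k ∈ ks, k ∈ ZI M) →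
      ‖(∑ k ∈ ZI M, cexp (I * w * k * α) * c (k :: (m - k) :: ks)) - e m ks‖ ≤ V * δ := by
  obtain ⟨V1, h10, hV1⟩ := PL_coef hw M
  obtain ⟨V2, h20, hV2⟩ := EL_coef hw (2 * M)
  refine ⟨(1 + V1) ^ n * V2, by positivity, fun c e α δ hc n' hn' hyp m hm ks hks hk => ?_⟩
  have hδ : 0 ≤ δ := (norm_nonneg _).trans (hyp 0 ⟨le_rfl, zero_le_one⟩ (List.replicate n' 0) (by simp) (by
    intro s hs
    rw [List.eq_of_mem_replicate hs]
    exact ⟨le_rfl, zero_le_one⟩))
  have h1 := hV1 n' (fun ks => (∑ k ∈ ZI M, cexp (I * w * k * α) * c (k :: (m - k) :: ks)) - e m ks) (V2 * δ)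
    (fun ts hts htm => ?_) ks hks hk
  · refine h1.trans ?_
    have h2 : V1 ^ n' ≤ (1 + V1) ^ n := by
      calc V1 ^ n' ≤ (1 + V1) ^ n' := pow_le_pow_left₀ h10.le (by linarith) _
        _ ≤ _ := pow_le_pow_right₀ (by linarith) hn'
    calc _ ≤ (1 + V1) ^ n * (V2 * δ) := mul_le_mul_of_nonneg_right h2 (by positivity)
      _ = _ := by ring
  · refine hV2 (fun m => PL w M (ts.map fun s : ℝ => I * (s : ℂ))
      (fun ks => (∑ k ∈ ZI M, cexp (I * w * k * α) * c (k :: (m - k) :: ks)) - e m ks)) δ ?_ m hm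
    intro t ht
    have h3 := hyp t ht ts hts htm
    rw [PL_two hc, ← EL_sub] at h3
    have h4 : (fun m => PL w M (ts.map fun s : ℝ => I * (s : ℂ))
        (fun ks => (∑ k ∈ ZI M, cexp (I * w * k * α) * c (k :: (m - k) :: ks)) - e m ks)) =
        fun m => PL w M (ts.map fun s : ℝ => I * (s : ℂ))
          (fun ks => ∑ k ∈ ZI M, cexp (I * w * k * α) * c (k :: (m - k) :: ks)) -
          PL w M (ts.map fun s : ℝ => I * (s : ℂ)) (e m) := by
      funext m
      rw [PL_sub]
    rw [h4]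
    exact h3

end IST4
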