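import Pool.Agent.PB.KJoin
import Pool.Agent.IST4.Cross2

/-!
# ISO by rows: extra rows over one base content (helper4)

`RH L σ y₀ b₀ C N n₀ K F`: `F : List ℂ → ℂ` is the normalised function of at most `n₀` extra rows over a base
content of `N` rows.

* **`rows_poly`**: the function of the extra rows is a Laurent polynomial in `exp (i π x / L)` up to `N^{-e}`,
  with coefficients `≤ κ (N^{C - s |k|} + N^{-e})`, `s = (1 - ε) 2 σ / L`, and annihilation and fusion are
  identities of the coefficients up to `κ N^{-e}`.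
-/

set_option autoImplicit false

noncomputable section

open Complex Filter Topology Set
open Pool.Agent.PB.Rec (EL EL_coef EL_add EL_sub EL_le EL_inj)

namespace IST4

/-- the hypotheses on the function of the extra rows, without fusion -/
structure RH0 (L σ y₀ b₀ C : ℝ) (N n₀ : ℕ) (K : Set ℂ) (F : List ℂ → ℂ) : Prop where
  perm : ∀ xs ys : List ℂ, xs.Perm ys → F xs = F ys
  fd : ∀ xs : List ℂ, xs.length + 1 ≤ n₀ → (∀ x ∈ xs, x ∈ K) →
    PBV.FD L σ y₀ b₀ C N (fun x => F (x :: xs))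
  axis : ∀ t : ℝ, |t| ≤ 2 * σ / Real.pi * Real.log N → I * (t : ℂ) ∈ K
  ann : ∀ t : ℝ, t ∈ Icc (0 : ℝ) 1 → ∀ xs : List ℂ, xs.length + 2 ≤ n₀ → (∀ x ∈ xs, x ∈ K) →
    F ((I * (t : ℂ) + (L : ℂ)) :: (I * (t : ℂ)) :: xs) = F xs

/-- fusion of `x + 2 L / 3` and `x` to `x + L / 3`, `x = i t` -/
def Fus (L : ℝ) (n₀ : ℕ) (K : Set ℂ) (F : List ℂ → ℂ) : Prop :=
  ∀ t : ℝ, t ∈ Icc (0 : ℝ) 1 → ∀ xs : List ℂ, xs.length + 2 ≤ n₀ → (∀ x ∈ xs, x ∈ K) →
    F ((I * (t : ℂ) + ((2 * L / 3 : ℝ) : ℂ)) :: (I * (t : ℂ)) :: xs) =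
      F ((I * (t : ℂ) + ((L / 3 : ℝ) : ℂ)) :: xs)

/-- the hypotheses on the function of the extra rows -/
structure RH (L σ y₀ b₀ C : ℝ) (N n₀ : ℕ) (K : Set ℂ) (F : List ℂ → ℂ) : Prop extends
    RH0 L σ y₀ b₀ C N n₀ K F where
  fus : Fus L n₀ K F

theorem EL_single (w : ℝ) (M : ℕ) (g : ℂ) (x : ℂ) : EL w M (fun m => if m = 0 then g else 0) x = g := by
  unfold EL
  rw [Finset.sum_eq_single (0 : ℤ)]
  · simp
  · intro k _ hk
    simp [hk]
  · intro h
    exact absurd (by simp) h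

theorem exp_L' {w L : ℝ} (hL : w * L = Real.pi) (k : ℤ) : cexp (I * w * k * (L : ℂ)) = (-1) ^ k :=
  Pool.Agent.PB.Rec.exp_L hL k

/-- `Good` from `RH` -/
theorem good_of {L σ ρ y₀ b₀ ε C e : ℝ} {M N n₀ : ℕ} {K : Set ℂ} {F : List ℂ → ℂ}
    (hσ0 : 0 < σ) (hL : 0 < L) (hy : 0 ≤ y₀) (hn : 2 ≤ n₀)
    (hk : ∀ f : ℂ → ℂ, PBV.FD L σ y₀ b₀ C N f →
      ∀ z : ℂ, |z.re| ≤ L + ρ → |z.im| ≤ (1 - ε) * (2 * σ / Real.pi * Real.log N) + 1 →
        ‖f z - EL (Real.pi / L) M (PBV.kc L σ ε N f) z‖ ≤ (N : ℝ) ^ (-e))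
    (hN : (1 - ε) * (2 * σ / Real.pi * Real.log N) + 1 ≤ 2 * σ / Real.pi * Real.log N)
    (hh : 0 ≤ (1 - ε) * (2 * σ / Real.pi * Real.log N))
    (hF : RH0 L σ y₀ b₀ C N n₀ K F) :
    Good (Real.pi / L) M (L + ρ) ((1 - ε) * (2 * σ / Real.pi * Real.log N)) ((N : ℝ) ^ (-e)) ((N : ℝ) ^ C)
      K n₀ F where
  perm := hF.perm
  ex xs h1 h2 := ⟨PBV.kc L σ ε N (fun x => F (x :: xs)), fun x hx1 hx2 =>
    hk _ (hF.fd xs (by omega) h2) x hx1 hx2⟩
  bd xs h1 h2 := by
    cases xs with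
    | nil =>
      have h3 := hF.ann 0 ⟨le_rfl, zero_le_one⟩ [] (by simpa using hn) (by simp)
      rw [← h3]
      have h4 := (hF.fd [I * ((0 : ℝ) : ℂ)] (by simpa using hn) (by
        intro x hx
        rw [List.mem_singleton.1 hx]
        exact hF.axis 0 (by simp; linarith))).b (I * ((0 : ℝ) : ℂ) + (L : ℂ)) (by
          simp
          rw [abs_of_pos hL]
          linarith) (by
          simp
          linarith)
      exact h4
    | cons x xs =>
      obtain ⟨t, ht, rfl⟩ := h2 x List.mem_cons_self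
      refine (hF.fd xs (by simpa using h1) ?_).b (I * (t : ℂ)) ?_ ?_
      · intro y hy'
        obtain ⟨s, hs, rfl⟩ := h2 y (List.mem_cons_of_mem _ hy')
        exact hF.axis s (hs.trans hN)
      · simp
        linarith
      · simp
        linarith

/-- **the function of the extra rows** (fusion only if it holds for the values) -/
theorem rows_poly0 {L σ ρ y₀ b₀ ε : ℝ} (C e : ℝ) (n₀ : ℕ) (hρ : 0 ≤ ρ) (hρσ : ρ < σ) (hσ : σ < L)
    (hb : 0 ≤ b₀) (hbσ : b₀ < σ) (hy : 0 ≤ y₀) (hε : 0 < ε) (hε1 : ε < 1) (hn : 2 ≤ n₀) :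
    ∃ (M : ℕ) (κ : ℝ) (N₀ : ℕ), 4 ≤ M ∧ 0 < κ ∧ ∀ N ≥ N₀, ∀ (K : Set ℂ) (F : List ℂ → ℂ),
      RH0 L σ y₀ b₀ C N n₀ K F → ∃ c : List ℤ → ℂ,
      (∀ ks ls : List ℤ, ks.Perm ls → c ks = c ls) ∧
      (∀ (ks : List ℤ) (k : ℤ), k ∈ ks → k ∉ ZI M → c ks = 0) ∧
      (∀ ks : List ℤ, ks.length ≤ n₀ →
        ‖c ks‖ ≤ κ * ((N : ℝ) ^ (C - (1 - ε) * (2 * σ / L) * wt ks) + (N : ℝ) ^ (-e))) ∧
      (∀ xs : List ℂ, xs.length ≤ n₀ → (∀ x ∈ xs, |x.re| ≤ L + ρ ∧ |x.im| ≤ 1) → (∀ x ∈ xs.tail, x ∈ K) →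
        ‖F xs - PL (Real.pi / L) M xs c‖ ≤ κ * (N : ℝ) ^ (-e)) ∧
      (∀ ks : List ℤ, ks.length + 2 ≤ n₀ → ∀ m : ℤ,
        ‖(∑ k ∈ ZI M, (-1 : ℂ) ^ k * c (k :: (m - k) :: ks)) - (if m = 0 then c ks else 0)‖ ≤
          κ * (N : ℝ) ^ (-e)) ∧
      (Fus L n₀ K F → ∀ ks : List ℤ, ks.length + 2 ≤ n₀ → ∀ m : ℤ,
        ‖(∑ k ∈ ZI M, cexp (I * Real.pi / 3 * (2 * k)) * c (k :: (m - k) :: ks)) -
          cexp (I * Real.pi / 3 * m) * c (m :: ks)‖ ≤ κ * (N : ℝ) ^ (-e)) := by
  have hpi := Real.pi_pos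
  have hσ0 : 0 < σ := by linarith
  have hL : 0 < L := by linarith
  have hw : 0 < Real.pi / L := by positivity
  have hwL : Real.pi / L * L = Real.pi := by field_simp
  obtain ⟨M0, hM0⟩ := PBV.kterm C e hρ hρσ hσ hb hbσ hy hε hε1
  obtain ⟨M, hM, hM4⟩ : ∃ M : ℕ, M0 ≤ M ∧ 4 ≤ M := ⟨max M0 4, le_max_left _ _, le_max_right _ _⟩
  obtain ⟨N1, hN1⟩ := hM0 M hM
  obtain ⟨lam, hlam⟩ := van hw M
  obtain ⟨V, hV0, hV⟩ := coef_rel hw M n₀
  set kap : ℝ := 1 + ∑ k ∈ ZI M, ∑ j, ‖lam k j‖ with hkapdef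
  have hkap1 : 1 ≤ kap := by
    have : 0 ≤ ∑ k ∈ ZI M, ∑ j, ‖lam k j‖ := Finset.sum_nonneg fun k _ => Finset.sum_nonneg fun j _ => norm_nonneg _
    linarith
  have hkap : ∀ k ∈ ZI M, ∑ j, ‖lam k j‖ ≤ kap := by
    intro k hk
    have := Finset.single_le_sum (f := fun k => ∑ j, ‖lam k j‖)
      (fun k _ => Finset.sum_nonneg fun j _ => norm_nonneg _) hk
    beta_reduce at this
    linarith
  have h0 : 0 ≤ kap := by linarith
  set D := DD (Real.pi / L) M kap with hD
  have hD0 : 0 ≤ D := DD_nonneg _ _ h0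
  set A : ℝ := n₀ * (1 + D) ^ n₀ with hA
  have hA0 : 0 ≤ A := by positivity
  -- the logarithm is large
  obtain ⟨N2, hN2⟩ : ∃ N2 : ℕ, ∀ N : ℕ, N2 ≤ N → 1 ≤ ε * (2 * σ / Real.pi * Real.log N) ∧ 2 ≤ N := by
    have h1 : Tendsto (fun N : ℕ => ε * (2 * σ / Real.pi) * Real.log N) atTop atTop :=
      (Real.tendsto_log_atTop.comp tendsto_natCast_atTop_atTop).const_mul_atTop (by positivity)
    obtain ⟨N2, hN2⟩ := eventually_atTop.1 ((h1.eventually_ge_atTop 1).and (eventually_ge_atTop 2))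
    refine ⟨N2, fun N hN => ⟨?_, (hN2 N hN).2⟩⟩
    have := (hN2 N hN).1
    linarith
  refine ⟨M, kap ^ n₀ * (1 + 2 * n₀) + A + V * (2 * A), max N1 N2, hM4, by positivity, fun N hN K F hF => ?_⟩
  have hNa : N1 ≤ N := le_trans (le_max_left _ _) hN
  have hNb : N2 ≤ N := le_trans (le_max_right _ _) hN
  obtain ⟨hN3, hN4⟩ := hN2 N hNb
  have hlog : 0 ≤ 2 * σ / Real.pi * Real.log N := by
    have : 0 ≤ Real.log N := Real.log_natCast_nonneg N
    positivity
  have hh : 0 ≤ (1 - ε) * (2 * σ / Real.pi * Real.log N) := mul_nonneg (by linarith) hlog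
  have hNc : (1 - ε) * (2 * σ / Real.pi * Real.log N) + 1 ≤ 2 * σ / Real.pi * Real.log N := by
    have : (1 - ε) * (2 * σ / Real.pi * Real.log N) = 2 * σ / Real.pi * Real.log N -
      ε * (2 * σ / Real.pi * Real.log N) := by ring
    linarith
  have hG : Good (Real.pi / L) M (L + ρ) ((1 - ε) * (2 * σ / Real.pi * Real.log N)) ((N : ℝ) ^ (-e))
      ((N : ℝ) ^ C) K n₀ F :=
    good_of hσ0 hL hy hn (hN1 N hNa) hNc hh hF
  have hNpos : (0 : ℝ) < N := by exact_mod_cast (by omega : 0 < N)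
  have hη : 0 ≤ (N : ℝ) ^ (-e) := by positivity
  have hB : 0 ≤ (N : ℝ) ^ C := by positivity
  have hR : 0 ≤ L + ρ := by linarith
  have hK : ∀ t : ℝ, |t| ≤ (1 - ε) * (2 * σ / Real.pi * Real.log N) + 1 → I * (t : ℂ) ∈ K :=
    fun t ht => hF.axis t (ht.trans hNc)
  have hpowA : ∀ n : ℕ, n ≤ n₀ → (n : ℝ) * (1 + D) ^ n * (N : ℝ) ^ (-e) ≤ A * (N : ℝ) ^ (-e) := by
    intro n hn'
    refine mul_le_mul_of_nonneg_right ?_ hη
    have h1 : (n : ℝ) ≤ n₀ := by exact_mod_cast hn'
    have h2 : (1 + D) ^ n ≤ (1 + D) ^ n₀ := pow_le_pow_right₀ (by linarith) hn'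
    rw [hA]
    gcongr
  have happ : ∀ xs : List ℂ, xs.length ≤ n₀ → (∀ x ∈ xs, |x.re| ≤ L + ρ ∧ |x.im| ≤ 1) →
      (∀ x ∈ xs.tail, x ∈ K) → ‖F xs - PL (Real.pi / L) M xs (cf (Real.pi / L) M lam F)‖ ≤ A * (N : ℝ) ^ (-e) := by
    intro xs h1 h2 h3
    exact (cf_app hh hη hlam hkap h0 hR hK xs (hG.mono h1) h2 h3).trans (hpowA _ h1)
  have hsupp2 : ∀ k l ks, l ∉ ZI M → cf (Real.pi / L) M lam F (k :: l :: ks) = 0 := fun k l ks hl =>
    cf_supp F (k := l) (by simp) hl
  -- lists on the axis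
  have haxis : ∀ ts : List ℝ, (∀ s ∈ ts, s ∈ Icc (0 : ℝ) 1) → ∀ x ∈ ts.map (fun s : ℝ => I * (s : ℂ)),
      x ∈ K ∧ |x.re| ≤ L + ρ ∧ |x.im| ≤ 1 := by
    intro ts hts x hx
    obtain ⟨s, hs, rfl⟩ := List.mem_map.1 hx
    have h1 := hts s hs
    refine ⟨hK s ?_, by simpa using hR, by simpa [abs_le] using ⟨by linarith [h1.1], h1.2⟩⟩
    rw [abs_of_nonneg h1.1]
    linarith [h1.2]
  refine ⟨cf (Real.pi / L) M lam F, fun ks ls => cf_perm hF.perm, fun ks k hk => cf_supp F hk, ?_, ?_, ?_, ?_⟩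
  · -- size
    intro ks hks
    have h1 := cf_le hw hh hη hlam hkap hkap1 hR hB hK hG ks hks
    have h2 : Real.exp (-(Real.pi / L * ((1 - ε) * (2 * σ / Real.pi * Real.log N)) * wt ks)) * (N : ℝ) ^ C =
        (N : ℝ) ^ (C - (1 - ε) * (2 * σ / L) * wt ks) := by
      rw [Real.rpow_def_of_pos hNpos, Real.rpow_def_of_pos hNpos, ← Real.exp_add]
      congr 1
      field_simp
      ring
    rw [h2] at h1
    refine h1.trans ?_
    have h3 : 0 ≤ (N : ℝ) ^ (C - (1 - ε) * (2 * σ / L) * wt ks) := by positivity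
    have h4 : 0 ≤ kap ^ n₀ := by positivity
    calc _ ≤ kap ^ n₀ * ((1 + 2 * n₀) * ((N : ℝ) ^ (C - (1 - ε) * (2 * σ / L) * wt ks) + (N : ℝ) ^ (-e))) := by
          refine mul_le_mul_of_nonneg_left ?_ h4
          have h5 : (0 : ℝ) ≤ n₀ := by positivity
          nlinarith [mul_nonneg h5 h3, mul_nonneg h5 hη]
      _ = kap ^ n₀ * (1 + 2 * n₀) * ((N : ℝ) ^ (C - (1 - ε) * (2 * σ / L) * wt ks) + (N : ℝ) ^ (-e)) := by ring
      _ ≤ _ := by
          refine mul_le_mul_of_nonneg_right ?_ (by positivity)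
          have : 0 ≤ V * (2 * A) := by positivity
          linarith
  · intro xs h1 h2 h3
    refine (happ xs h1 h2 h3).trans (mul_le_mul_of_nonneg_right ?_ hη)
    have h4 : 0 ≤ kap ^ n₀ * (1 + 2 * (n₀ : ℝ)) := by positivity
    have : 0 ≤ V * (2 * A) := by positivity
    linarith
  · -- annihilation
    intro ks hks m
    have hconst : V * (2 * A * (N : ℝ) ^ (-e)) ≤
        (kap ^ n₀ * (1 + 2 * n₀) + A + V * (2 * A)) * (N : ℝ) ^ (-e) := by
      have h4 : 0 ≤ kap ^ n₀ * (1 + 2 * (n₀ : ℝ)) := by positivity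
      calc _ = V * (2 * A) * (N : ℝ) ^ (-e) := by ring
        _ ≤ _ := mul_le_mul_of_nonneg_right (by linarith) hη
    by_cases hk : ∀ k ∈ ks, k ∈ ZI M
    · by_cases hm : m ∈ ZI (2 * M)
      · have h1 := hV (cf (Real.pi / L) M lam F) (fun m ks => if m = 0 then cf (Real.pi / L) M lam F ks else 0)
          (L : ℂ) (2 * A * (N : ℝ) ^ (-e)) hsupp2 ks.length (by omega) (fun t ht ts hts htm => ?_) m hm ks rfl hk
        · simp only [exp_L' hwL] at h1
          exact h1.trans hconst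
        · set xs := ts.map fun s : ℝ => I * (s : ℂ) with hxs
          have hxl : xs.length = ks.length := by rw [hxs, List.length_map, hts]
          have hax := haxis ts htm
          have hax1 := haxis [t] (by simpa using ht) (I * (t : ℂ)) (by simp)
          have e1 : EL (Real.pi / L) (2 * M) (fun m => PL (Real.pi / L) M xs
              (fun ks => if m = 0 then cf (Real.pi / L) M lam F ks else 0)) (I * (t : ℂ)) =
              PL (Real.pi / L) M xs (cf (Real.pi / L) M lam F) := by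
            have : (fun m : ℤ => PL (Real.pi / L) M xs (fun ks => if m = 0 then cf (Real.pi / L) M lam F ks else 0)) =
                fun m => if m = 0 then PL (Real.pi / L) M xs (cf (Real.pi / L) M lam F) else 0 := by
              funext m
              by_cases hm0 : m = 0
              · simp only [hm0, if_true]
              · simp only [hm0, if_false]
                have := PL_const (Real.pi / L) M xs 0 (fun _ => 0)
                simpa using this
            rw [this, EL_single]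
          rw [e1]
          have g1 := happ ((I * (t : ℂ) + (L : ℂ)) :: (I * (t : ℂ)) :: xs) (by simp [hxl]; omega) (by
            intro x hx
            rcases List.mem_cons.1 hx with rfl | hx
            · refine ⟨?_, ?_⟩
              · simp
                rw [abs_of_pos hL]
                linarith
              · have := hax1.2.2
                simpa using this
            · rcases List.mem_cons.1 hx with rfl | hx
              · exact hax1.2
              · exact (hax x hx).2) (by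
            intro x hx
            simp only [List.tail_cons] at hx
            rcases List.mem_cons.1 hx with rfl | hx
            · exact hax1.1
            · exact (hax x hx).1)
          have g2 := happ xs (by omega) (fun x hx => (hax x hx).2) (fun x hx => (hax x (List.mem_of_mem_tail hx)).1)
          rw [hF.ann t ht xs (by omega) fun x hx => (hax x hx).1] at g1
          have e2 : PL (Real.pi / L) M ((I * (t : ℂ) + (L : ℂ)) :: (I * (t : ℂ)) :: xs) (cf (Real.pi / L) M lam F) -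
              PL (Real.pi / L) M xs (cf (Real.pi / L) M lam F) =
              (F xs - PL (Real.pi / L) M xs (cf (Real.pi / L) M lam F)) -
              (F xs - PL (Real.pi / L) M ((I * (t : ℂ) + (L : ℂ)) :: (I * (t : ℂ)) :: xs) (cf (Real.pi / L) M lam F)) := by
            ring
          rw [e2]
          refine (norm_sub_le _ _).trans ?_
          linarith
      · have h1 : (∑ k ∈ ZI M, (-1 : ℂ) ^ k * cf (Real.pi / L) M lam F (k :: (m - k) :: ks)) = 0 := by
          refine Finset.sum_eq_zero fun k hk' => ?_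
          rw [hsupp2 _ _ _ (fun h' => hm ?_), mul_zero]
          unfold ZI at *
          rw [Finset.mem_Icc] at *
          push_cast
          omega
        have h2 : m ≠ 0 := by
          rintro rfl
          exact hm (by simp [ZI])
        rw [h1, if_neg h2, sub_zero, norm_zero]
        positivity
    · push Not at hk
      obtain ⟨l, hl, hl'⟩ := hk
      have h1 : (∑ k ∈ ZI M, (-1 : ℂ) ^ k * cf (Real.pi / L) M lam F (k :: (m - k) :: ks)) = 0 := by
        refine Finset.sum_eq_zero fun k _ => ?_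
        rw [cf_supp F (k := l) (by simp [hl]) hl', mul_zero]
      rw [h1, cf_supp F hl hl']
      simp
      positivity
  · -- fusion
    intro hfus ks hks m
    have hconst : V * (2 * A * (N : ℝ) ^ (-e)) ≤
        (kap ^ n₀ * (1 + 2 * n₀) + A + V * (2 * A)) * (N : ℝ) ^ (-e) := by
      have h4 : 0 ≤ kap ^ n₀ * (1 + 2 * (n₀ : ℝ)) := by positivity
      calc _ = V * (2 * A) * (N : ℝ) ^ (-e) := by ring
        _ ≤ _ := mul_le_mul_of_nonneg_right (by linarith) hη
    have ex1 : ∀ k : ℤ, cexp (I * ((Real.pi / L : ℝ) : ℂ) * k * ((2 * L / 3 : ℝ) : ℂ)) =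
        cexp (I * Real.pi / 3 * (2 * k)) := by
      intro k
      congr 1
      have : (L : ℂ) ≠ 0 := by exact_mod_cast hL.ne'
      push_cast
      field_simp
    have ex2 : ∀ k : ℤ, cexp (I * ((Real.pi / L : ℝ) : ℂ) * k * ((L / 3 : ℝ) : ℂ)) =
        cexp (I * Real.pi / 3 * k) := by
      intro k
      congr 1
      have : (L : ℂ) ≠ 0 := by exact_mod_cast hL.ne'
      push_cast
      field_simp
    by_cases hk : ∀ k ∈ ks, k ∈ ZI M
    · by_cases hm : m ∈ ZI (2 * M)
      · have h1 := hV (cf (Real.pi / L) M lam F)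
          (fun m ks => cexp (I * Real.pi / 3 * m) * cf (Real.pi / L) M lam F (m :: ks))
          ((2 * L / 3 : ℝ) : ℂ) (2 * A * (N : ℝ) ^ (-e)) hsupp2 ks.length (by omega)
          (fun t ht ts hts htm => ?_) m hm ks rfl hk
        · simp only [ex1] at h1
          exact h1.trans hconst
        · set xs := ts.map fun s : ℝ => I * (s : ℂ) with hxs
          have hxl : xs.length = ks.length := by rw [hxs, List.length_map, hts]
          have hax := haxis ts htm
          have hax1 := haxis [t] (by simpa using ht) (I * (t : ℂ)) (by simp)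
          have e1 : EL (Real.pi / L) (2 * M) (fun m => PL (Real.pi / L) M xs
              (fun ks => cexp (I * Real.pi / 3 * m) * cf (Real.pi / L) M lam F (m :: ks))) (I * (t : ℂ)) =
              PL (Real.pi / L) M ((I * (t : ℂ) + ((L / 3 : ℝ) : ℂ)) :: xs) (cf (Real.pi / L) M lam F) := by
            rw [PL_cons, EL_add]
            rw [EL_zero_ext (M := M) (M' := 2 * M) (by omega)
              (a := fun k => PL (Real.pi / L) M xs (fun ks => cf (Real.pi / L) M lam F (k :: ks)) *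
                cexp (I * ((Real.pi / L : ℝ) : ℂ) * k * ((L / 3 : ℝ) : ℂ))) (fun k hk' => ?_)]
            · unfold EL
              refine Finset.sum_congr rfl fun k _ => ?_
              beta_reduce
              rw [PL_const, ex2]
              ring
            · have h3 := PL_congr (Real.pi / L) M xs (c := fun ks => cf (Real.pi / L) M lam F (k :: ks))
                (d := fun ks => 0 * cf (Real.pi / L) M lam F ks)
                (fun ks _ _ => by rw [cf_supp F (k := k) (by simp) hk', zero_mul])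
              rw [h3, PL_const, zero_mul, zero_mul]
          rw [e1]
          have g1 := happ ((I * (t : ℂ) + ((2 * L / 3 : ℝ) : ℂ)) :: (I * (t : ℂ)) :: xs) (by simp [hxl]; omega) (by
            intro x hx
            rcases List.mem_cons.1 hx with rfl | hx
            · refine ⟨?_, ?_⟩
              · have : (I * (t : ℂ) + ((2 * L / 3 : ℝ) : ℂ)).re = 2 * L / 3 := by simp
                rw [this, abs_of_pos (by positivity)]
                linarith
              · have h5 : (I * (t : ℂ) + ((2 * L / 3 : ℝ) : ℂ)).im = t := by simp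
                have := hax1.2.2
                rw [h5]
                simpa using this
            · rcases List.mem_cons.1 hx with rfl | hx
              · exact hax1.2
              · exact (hax x hx).2) (by
            intro x hx
            simp only [List.tail_cons] at hx
            rcases List.mem_cons.1 hx with rfl | hx
            · exact hax1.1
            · exact (hax x hx).1)
          have g2 := happ ((I * (t : ℂ) + ((L / 3 : ℝ) : ℂ)) :: xs) (by simp [hxl]; omega) (by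
            intro x hx
            rcases List.mem_cons.1 hx with rfl | hx
            · refine ⟨?_, ?_⟩
              · have : (I * (t : ℂ) + ((L / 3 : ℝ) : ℂ)).re = L / 3 := by simp
                rw [this, abs_of_pos (by positivity)]
                linarith
              · have h5 : (I * (t : ℂ) + ((L / 3 : ℝ) : ℂ)).im = t := by simp
                have := hax1.2.2
                rw [h5]
                simpa using this
            · exact (hax x hx).2) (by
            intro x hx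
            simp only [List.tail_cons] at hx
            exact (hax x hx).1)
          rw [hfus t ht xs (by omega) fun x hx => (hax x hx).1] at g1
          have e2 : ∀ a b d : ℂ, b - d = (a - d) - (a - b) := fun a b d => by ring
          rw [e2 (F ((I * (t : ℂ) + ((L / 3 : ℝ) : ℂ)) :: xs))]
          refine (norm_sub_le _ _).trans ?_
          linarith
      · have h1 : (∑ k ∈ ZI M, cexp (I * Real.pi / 3 * (2 * k)) * cf (Real.pi / L) M lam F (k :: (m - k) :: ks)) = 0 := by
          refine Finset.sum_eq_zero fun k hk' => ?_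
          rw [hsupp2 _ _ _ (fun h' => hm ?_), mul_zero]
          unfold ZI at *
          rw [Finset.mem_Icc] at *
          push_cast
          omega
        have h2 : cf (Real.pi / L) M lam F (m :: ks) = 0 := by
          refine cf_supp F (k := m) (by simp) fun h' => hm ?_
          unfold ZI at *
          rw [Finset.mem_Icc] at *
          push_cast
          omega
        rw [h1, h2, mul_zero, sub_zero, norm_zero]
        positivity
    · push Not at hk
      obtain ⟨l, hl, hl'⟩ := hk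
      have h1 : (∑ k ∈ ZI M, cexp (I * Real.pi / 3 * (2 * k)) * cf (Real.pi / L) M lam F (k :: (m - k) :: ks)) = 0 := by
        refine Finset.sum_eq_zero fun k _ => ?_
        rw [cf_supp F (k := l) (by simp [hl]) hl', mul_zero]
      rw [h1, cf_supp F (k := l) (by simp [hl]) hl', mul_zero, sub_zero, norm_zero]
      positivity

/-- **the function of the extra rows**, with fusion -/
theorem rows_poly {L σ ρ y₀ b₀ ε : ℝ} (C e : ℝ) (n₀ : ℕ) (hρ : 0 ≤ ρ) (hρσ : ρ < σ) (hσ : σ < L)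
    (hb : 0 ≤ b₀) (hbσ : b₀ < σ) (hy : 0 ≤ y₀) (hε : 0 < ε) (hε1 : ε < 1) (hn : 2 ≤ n₀) :
    ∃ (M : ℕ) (κ : ℝ) (N₀ : ℕ), 4 ≤ M ∧ 0 < κ ∧ ∀ N ≥ N₀, ∀ (K : Set ℂ) (F : List ℂ → ℂ),
      RH L σ y₀ b₀ C N n₀ K F → ∃ c : List ℤ → ℂ,
      (∀ ks ls : List ℤ, ks.Perm ls → c ks = c ls) ∧
      (∀ (ks : List ℤ) (k : ℤ), k ∈ ks → k ∉ ZI M → c ks = 0) ∧
      (∀ ks : List ℤ, ks.length ≤ n₀ →
        ‖c ks‖ ≤ κ * ((N : ℝ) ^ (C - (1 - ε) * (2 * σ / L) * wt ks) + (N : ℝ) ^ (-e))) ∧
      (∀ xs : List ℂ, xs.length ≤ n₀ → (∀ x ∈ xs, |x.re| ≤ L + ρ ∧ |x.im| ≤ 1) → (∀ x ∈ xs.tail, x ∈ K) →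
        ‖F xs - PL (Real.pi / L) M xs c‖ ≤ κ * (N : ℝ) ^ (-e)) ∧
      (∀ ks : List ℤ, ks.length + 2 ≤ n₀ → ∀ m : ℤ,
        ‖(∑ k ∈ ZI M, (-1 : ℂ) ^ k * c (k :: (m - k) :: ks)) - (if m = 0 then c ks else 0)‖ ≤
          κ * (N : ℝ) ^ (-e)) ∧
      (∀ ks : List ℤ, ks.length + 2 ≤ n₀ → ∀ m : ℤ,
        ‖(∑ k ∈ ZI M, cexp (I * Real.pi / 3 * (2 * k)) * c (k :: (m - k) :: ks)) -
          cexp (I * Real.pi / 3 * m) * c (m :: ks)‖ ≤ κ * (N : ℝ) ^ (-e)) := by
  obtain ⟨M, κ, N₀, hM, hκ, h⟩ := rows_poly0 C e n₀ hρ hρσ hσ hb hbσ hy hε hε1 hn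
  refine ⟨M, κ, N₀, hM, hκ, fun N hN K F hF => ?_⟩
  obtain ⟨c, h1, h2, h3, h4, h5, h6⟩ := h N hN K F hF.toRH0
  exact ⟨c, h1, h2, h3, h4, h5, h6 hF.fus⟩

end IST4
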