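import Pool.Agent.IST.RowD
import Pool.Agent.IST4.Rows

/-!
# ISO by rows: `RowC` from the function of the extra rows (helper4)

* **`rowC_of`**: `RH` (extra rows over one base content) gives `IST.Row.RowC` (33's relations of the
  coefficients, errors `κ N^{-e}`) and the values.
-/

set_option autoImplicit false

noncomputable section

open Complex Filter Topology Set
open Pool.Agent.PB.Rec (EL EL_coef EL_add EL_sub EL_le EL_inj)

namespace IST4

theorem wt_row (ks : List ℤ) : wt ks = (IST.Row.wt (ks : Multiset ℤ) : ℝ) := by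
  induction ks with
  | nil => simp [wt, IST.Row.wt]
  | cons k ks ih =>
    rw [wt_cons, ih, ← Multiset.cons_coe, IST.Row.wt_cons]
    push_cast
    rw [Nat.cast_natAbs]
    push_cast
    rfl

/-- **the relations of the coefficients** -/
theorem rowC_of {L σ ρ y₀ b₀ ε : ℝ} (C e : ℝ) (n₀ : ℕ) (hρ : 0 ≤ ρ) (hρσ : ρ < σ) (hσ : σ < L)
    (hb : 0 ≤ b₀) (hbσ : b₀ < σ) (hy : 0 ≤ y₀) (hε : 0 < ε) (hε1 : ε < 1) (hn : 2 ≤ n₀) :
    ∃ (M : ℕ) (κ : ℝ) (N₀ : ℕ), 0 < κ ∧ ∀ N ≥ N₀, ∀ (K : Set ℂ) (F : List ℂ → ℂ),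
      RH L σ y₀ b₀ C N n₀ K F → ∃ c : Multiset ℤ → ℂ,
      IST.Row.RowC c n₀ M (κ * (N : ℝ) ^ C) ((N : ℝ) ^ (-((1 - ε) * (2 * σ / L)))) (κ * (N : ℝ) ^ (-e)) ∧
      ∀ xs : List ℂ, xs.length ≤ n₀ → (∀ x ∈ xs, |x.re| ≤ L + ρ ∧ |x.im| ≤ 1) → (∀ x ∈ xs.tail, x ∈ K) →
        ‖F xs - PL (Real.pi / L) M xs (fun ks => c (ks : Multiset ℤ))‖ ≤ κ * (N : ℝ) ^ (-e) := by
  obtain ⟨M, κ, N₀, hM, hκ, hN₀⟩ := rows_poly C e n₀ hρ hρσ hσ hb hbσ hy hε hε1 hn
  refine ⟨M, κ, max N₀ 1, hκ, fun N hN K F hF => ?_⟩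
  obtain ⟨c, hperm, hsupp, hbd, happ, hann, hfus⟩ := hN₀ N (le_trans (le_max_left _ _) hN) K F hF
  have hN1 : 1 ≤ N := le_trans (le_max_right _ _) hN
  have hNpos : (0 : ℝ) < N := by exact_mod_cast hN1
  have hs : 0 ≤ (1 - ε) * (2 * σ / L) := by
    have : 0 ≤ 2 * σ / L := div_nonneg (by linarith) (by linarith)
    exact mul_nonneg (by linarith) this
  set c' : Multiset ℤ → ℂ := fun κ' => c κ'.toList with hc'
  have hcc : ∀ ks : List ℤ, c' (ks : Multiset ℤ) = c ks := by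
    intro ks
    exact hperm _ _ (Multiset.coe_eq_coe.1 (Multiset.coe_toList _))
  have hcc2 : ∀ (k l : ℤ) (ks : List ℤ), c' (k ::ₘ l ::ₘ (ks : Multiset ℤ)) = c (k :: l :: ks) := by
    intro k l ks
    rw [Multiset.cons_coe, Multiset.cons_coe, hcc]
  have hcc1 : ∀ (k : ℤ) (ks : List ℤ), c' (k ::ₘ (ks : Multiset ℤ)) = c (k :: ks) := by
    intro k ks
    rw [Multiset.cons_coe, hcc]
  have hsum : ∀ (j : ℤ) (φ : ℤ → ℂ) (ks : List ℤ), (∑ k ∈ IST.Row.bx M j, φ k * c (k :: (j - k) :: ks)) =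
      ∑ k ∈ ZI M, φ k * c (k :: (j - k) :: ks) := by
    intro j φ ks
    unfold IST.Row.bx
    rw [Finset.sum_filter]
    refine Finset.sum_congr rfl fun k _ => ?_
    split_ifs with h1
    · rfl
    · rw [hsupp (k :: (j - k) :: ks) (j - k) (by simp) h1, mul_zero]
  have hcard : ∀ ks : List ℤ, Multiset.card (ks : Multiset ℤ) = ks.length := fun ks => rfl
  refine ⟨c', ⟨by positivity, by positivity, ?_, by positivity, hM, ?_, ?_, ?_, ?_⟩, ?_⟩
  · rw [Real.rpow_neg hNpos.le]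
    exact inv_le_one_of_one_le₀ (Real.one_le_rpow (by exact_mod_cast hN1) hs)
  · intro κ' hκ'
    induction κ' using Quot.inductionOn with
    | h ks =>
      have hκ'' : ks.length ≤ n₀ := hκ'
      have h1 := hbd ks hκ''
      have h2 : c' (Quot.mk _ ks) = c ks := hcc ks
      rw [h2]
      refine h1.trans (le_of_eq ?_)
      have h3 : ((N : ℝ) ^ (-((1 - ε) * (2 * σ / L)))) ^ IST.Row.wt (Quot.mk _ ks) =
          (N : ℝ) ^ (-((1 - ε) * (2 * σ / L)) * wt ks) := by
        rw [wt_row ks, Real.rpow_mul hNpos.le, Real.rpow_natCast]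
        rfl
      have h6 : (N : ℝ) ^ (C - (1 - ε) * (2 * σ / L) * wt ks) =
          (N : ℝ) ^ C * (N : ℝ) ^ (-((1 - ε) * (2 * σ / L)) * wt ks) := by
        rw [← Real.rpow_add hNpos]
        congr 1
        ring
      rw [h3, h6]
      ring
  · intro κ' hκ'
    induction κ' using Quot.inductionOn with
    | h ks =>
      obtain ⟨k, hk, hk'⟩ := hκ'
      have h2 : c' (Quot.mk _ ks) = c ks := hcc ks
      rw [h2]
      refine hsupp ks k hk fun h' => ?_
      unfold ZI at h'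
      rw [Finset.mem_Icc] at h'
      have := abs_le.2 h'
      omega
  · intro κ' hκ' j
    induction κ' using Quot.inductionOn with
    | h ks =>
      have hκ'' : ks.length + 2 ≤ n₀ := hκ'
      have h1 := hann ks hκ'' j
      have e1 : ∀ k : ℤ, c' (k ::ₘ (j - k) ::ₘ (Quot.mk _ ks)) = c (k :: (j - k) :: ks) := fun k => hcc2 k _ ks
      have e2 : c' (Quot.mk _ ks) = c ks := hcc ks
      simp only [e1, e2]
      rw [hsum j (fun k => (-1 : ℂ) ^ k) ks]
      exact h1
  · intro κ' hκ' j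
    induction κ' using Quot.inductionOn with
    | h ks =>
      have hκ'' : ks.length + 2 ≤ n₀ := hκ'
      have h1 := hfus ks hκ'' j
      have e1 : ∀ k : ℤ, c' (k ::ₘ (j - k) ::ₘ (Quot.mk _ ks)) = c (k :: (j - k) :: ks) := fun k => hcc2 k _ ks
      have e2 : c' (j ::ₘ (Quot.mk _ ks)) = c (j :: ks) := hcc1 j ks
      simp only [e1, e2]
      rw [hsum j (fun k => IST.Row.ze ^ (2 * k - j)) ks]
      have hze : ∀ m : ℤ, IST.Row.ze ^ m = cexp (I * Real.pi / 3 * m) := by
        intro m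
        unfold IST.Row.ze
        rw [← Complex.exp_int_mul]
        congr 1
        ring
      have e3 : (∑ k ∈ ZI M, IST.Row.ze ^ (2 * k - j) * c (k :: (j - k) :: ks)) - c (j :: ks) =
          cexp (-(I * Real.pi / 3 * j)) * ((∑ k ∈ ZI M, cexp (I * Real.pi / 3 * (2 * k)) * c (k :: (j - k) :: ks)) -
            cexp (I * Real.pi / 3 * j) * c (j :: ks)) := by
        rw [mul_sub, Finset.mul_sum, ← mul_assoc, ← Complex.exp_add]
        congr 1
        · refine Finset.sum_congr rfl fun k _ => ?_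
          rw [hze, ← mul_assoc, ← Complex.exp_add]
          congr 2
          push_cast
          ring
        · simp
      rw [e3, norm_mul]
      have e4 : ‖cexp (-(I * Real.pi / 3 * j))‖ = 1 := by
        rw [Complex.norm_exp]
        have : (-(I * Real.pi / 3 * j : ℂ)).re = 0 := by
          have h5 : (-(I * Real.pi / 3 * j : ℂ)) = ((-(Real.pi / 3 * j) : ℝ) : ℂ) * I := by
            push_cast
            ring
          rw [h5, Complex.re_ofReal_mul, Complex.I_re, mul_zero]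
        rw [this, Real.exp_zero]
      rw [e4, one_mul]
      exact h1
  · intro xs h1 h2 h3
    have e1 : (fun ks : List ℤ => c' (ks : Multiset ℤ)) = c := funext hcc
    rw [e1]
    exact happ xs h1 h2 h3

end IST4
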