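import Pool.Agent.IST4.Rows

/-!
# ISO by rows: extra rows from the one row expansions (helper4)

`rows_good`: `Good w M R h η B K n₀ F` (every row of `F` is a Laurent polynomial of degree `M` up to `η` on
`|Re x| ≤ R`, `|Im x| ≤ h + 1`, the other rows in `K`; `|F| ≤ B` on the imaginary axis), annihilation (and
fusion) on the axis; then the coefficients, their size, the values and the relations, with a constant that
depends on `w`, `M`, `n₀` only.
-/

set_option autoImplicit false

noncomputable section

open Complex Filter Topology Set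
open Pool.Agent.PB.Rec (EL EL_coef EL_add EL_sub EL_le EL_inj)

namespace IST4

/-- annihilation of `x + L` and `x`, `x = i t`, up to `η` -/
def Ann (L : ℝ) (n₀ : ℕ) (K : Set ℂ) (η : ℝ) (F : List ℂ → ℂ) : Prop :=
  ∀ t : ℝ, t ∈ Icc (0 : ℝ) 1 → ∀ xs : List ℂ, xs.length + 2 ≤ n₀ → (∀ x ∈ xs, x ∈ K) →
    ‖F ((I * (t : ℂ) + (L : ℂ)) :: (I * (t : ℂ)) :: xs) - F xs‖ ≤ η

/-- **the function of the extra rows from the one row expansions** -/
theorem rows_good {L : ℝ} (hL : 0 < L) (M n₀ : ℕ) :
    ∃ κ : ℝ, 0 < κ ∧ ∀ (R h η B : ℝ) (K : Set ℂ) (F : List ℂ → ℂ), L ≤ R → 0 ≤ h → 0 ≤ η → 0 ≤ B →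
      Good (Real.pi / L) M R h η B K n₀ F → (∀ t : ℝ, |t| ≤ h + 1 → I * (t : ℂ) ∈ K) → Ann L n₀ K η F →
      ∃ c : List ℤ → ℂ,
      (∀ ks ls : List ℤ, ks.Perm ls → c ks = c ls) ∧
      (∀ (ks : List ℤ) (k : ℤ), k ∈ ks → k ∉ ZI M → c ks = 0) ∧
      (∀ ks : List ℤ, ks.length ≤ n₀ →
        ‖c ks‖ ≤ κ * (Real.exp (-(Real.pi / L * h * wt ks)) * B + η)) ∧
      (∀ xs : List ℂ, xs.length ≤ n₀ → (∀ x ∈ xs, |x.re| ≤ R ∧ |x.im| ≤ 1) → (∀ x ∈ xs.tail, x ∈ K) →
        ‖F xs - PL (Real.pi / L) M xs c‖ ≤ κ * η) ∧
      (∀ ks : List ℤ, ks.length + 2 ≤ n₀ → ∀ m : ℤ,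
        ‖(∑ k ∈ ZI M, (-1 : ℂ) ^ k * c (k :: (m - k) :: ks)) - (if m = 0 then c ks else 0)‖ ≤ κ * η) ∧
      (Fus L n₀ K F → ∀ ks : List ℤ, ks.length + 2 ≤ n₀ → ∀ m : ℤ,
        ‖(∑ k ∈ ZI M, cexp (I * Real.pi / 3 * (2 * k)) * c (k :: (m - k) :: ks)) -
          cexp (I * Real.pi / 3 * m) * c (m :: ks)‖ ≤ κ * η) := by
  have hpi := Real.pi_pos
  obtain ⟨w, hwd⟩ : ∃ w : ℝ, w = Real.pi / L := ⟨_, rfl⟩
  rw [← hwd]
  have hw : 0 < w := by rw [hwd]; positivity
  have hwL : w * L = Real.pi := by rw [hwd]; field_simp
  obtain ⟨lam, hlam⟩ := van hw M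
  obtain ⟨V, hV0, hV⟩ := coef_rel hw M n₀
  set kap : ℝ := 1 + ∑ k ∈ ZI M, ∑ j, ‖lam k j‖ with hkapdef
  have hkap1 : 1 ≤ kap := by
    have : 0 ≤ ∑ k ∈ ZI M, ∑ j, ‖lam k j‖ := Finset.sum_nonneg fun k _ => Finset.sum_nonneg fun j _ => norm_nonneg _
    linarith
  have hkap : ∀ k ∈ ZI M, ∑ j, ‖lam k j‖ ≤ kap := by
    intro k hk
    have := Finset.single_le_sum (f := fun k => ∑ j, ‖lam k j‖)
      (fun k _ => Finset.sum_nonneg fun j _ => norm_nonneg _) hk
    beta_reduce at this
    linarith
  have h0 : 0 ≤ kap := by linarith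
  set D := DD w M kap with hD
  have hD0 : 0 ≤ D := DD_nonneg _ _ h0
  set A : ℝ := n₀ * (1 + D) ^ n₀ with hA
  have hA0 : 0 ≤ A := by positivity
  refine ⟨kap ^ n₀ * (1 + 2 * n₀) + A + V * (2 * A + 1), by positivity,
    fun R h η B K F hLR hh hη hB hG hK hann => ?_⟩
  have hR : 0 ≤ R := by linarith
  have hpowA : ∀ n : ℕ, n ≤ n₀ → (n : ℝ) * (1 + D) ^ n * η ≤ A * η := by
    intro n hn'
    refine mul_le_mul_of_nonneg_right ?_ hη
    have h1 : (n : ℝ) ≤ n₀ := by exact_mod_cast hn'
    have h2 : (1 + D) ^ n ≤ (1 + D) ^ n₀ := pow_le_pow_right₀ (by linarith) hn'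
    rw [hA]
    gcongr
  have happ : ∀ xs : List ℂ, xs.length ≤ n₀ → (∀ x ∈ xs, |x.re| ≤ R ∧ |x.im| ≤ 1) →
      (∀ x ∈ xs.tail, x ∈ K) → ‖F xs - PL w M xs (cf w M lam F)‖ ≤ A * η := by
    intro xs h1 h2 h3
    exact (cf_app hh hη hlam hkap h0 hR hK xs (hG.mono h1) h2 h3).trans (hpowA _ h1)
  have hsupp2 : ∀ k l ks, l ∉ ZI M → cf w M lam F (k :: l :: ks) = 0 := fun k l ks hl =>
    cf_supp F (k := l) (by simp) hl
  -- lists on the axis
  have haxis : ∀ ts : List ℝ, (∀ s ∈ ts, s ∈ Icc (0 : ℝ) 1) → ∀ x ∈ ts.map (fun s : ℝ => I * (s : ℂ)),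
      x ∈ K ∧ |x.re| ≤ R ∧ |x.im| ≤ 1 := by
    intro ts hts x hx
    obtain ⟨s, hs, rfl⟩ := List.mem_map.1 hx
    have h1 := hts s hs
    refine ⟨hK s ?_, by simpa using hR, by simpa [abs_le] using ⟨by linarith [h1.1], h1.2⟩⟩
    rw [abs_of_nonneg h1.1]
    linarith [h1.2]
  refine ⟨cf w M lam F, fun ks ls => cf_perm hG.perm, fun ks k hk => cf_supp F hk, ?_, ?_, ?_, ?_⟩
  · -- size
    intro ks hks
    have h1 := cf_le hw hh hη hlam hkap hkap1 hR hB hK hG ks hks
    refine h1.trans ?_
    have h3 : 0 ≤ Real.exp (-(w * h * wt ks)) * B := by positivity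
    have h4 : 0 ≤ kap ^ n₀ := by positivity
    calc _ ≤ kap ^ n₀ * ((1 + 2 * n₀) * (Real.exp (-(w * h * wt ks)) * B + η)) := by
          refine mul_le_mul_of_nonneg_left ?_ h4
          have h5 : (0 : ℝ) ≤ n₀ := by positivity
          nlinarith [mul_nonneg h5 h3, mul_nonneg h5 hη]
      _ = kap ^ n₀ * (1 + 2 * n₀) * (Real.exp (-(w * h * wt ks)) * B + η) := by ring
      _ ≤ _ := by
          refine mul_le_mul_of_nonneg_right ?_ (by positivity)
          have : 0 ≤ V * (2 * A + 1) := by positivity
          linarith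
  · intro xs h1 h2 h3
    refine (happ xs h1 h2 h3).trans (mul_le_mul_of_nonneg_right ?_ hη)
    have h4 : 0 ≤ kap ^ n₀ * (1 + 2 * (n₀ : ℝ)) := by positivity
    have : 0 ≤ V * (2 * A + 1) := by positivity
    linarith
  · -- annihilation
    intro ks hks m
    have hconst : V * ((2 * A + 1) * η) ≤
        (kap ^ n₀ * (1 + 2 * n₀) + A + V * (2 * A + 1)) * η := by
      have h4 : 0 ≤ kap ^ n₀ * (1 + 2 * (n₀ : ℝ)) := by positivity
      calc _ = V * (2 * A + 1) * η := by ring
        _ ≤ _ := mul_le_mul_of_nonneg_right (by linarith) hη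
    by_cases hk : ∀ k ∈ ks, k ∈ ZI M
    · by_cases hm : m ∈ ZI (2 * M)
      · have h1 := hV (cf w M lam F) (fun m ks => if m = 0 then cf w M lam F ks else 0)
          (L : ℂ) ((2 * A + 1) * η) hsupp2 ks.length (by omega) (fun t ht ts hts htm => ?_) m hm ks rfl hk
        · simp only [exp_L' hwL] at h1
          exact h1.trans hconst
        · set xs := ts.map fun s : ℝ => I * (s : ℂ) with hxs
          have hxl : xs.length = ks.length := by rw [hxs, List.length_map, hts]
          have hax := haxis ts htm
          have hax1 := haxis [t] (by simpa using ht) (I * (t : ℂ)) (by simp)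
          have e1 : EL w (2 * M) (fun m => PL w M xs
              (fun ks => if m = 0 then cf w M lam F ks else 0)) (I * (t : ℂ)) =
              PL w M xs (cf w M lam F) := by
            have : (fun m : ℤ => PL w M xs (fun ks => if m = 0 then cf w M lam F ks else 0)) =
                fun m => if m = 0 then PL w M xs (cf w M lam F) else 0 := by
              funext m
              by_cases hm0 : m = 0
              · simp only [hm0, if_true]
              · simp only [hm0, if_false]
                have := PL_const w M xs 0 (fun _ => 0)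
                simpa using this
            rw [this, EL_single]
          rw [e1]
          have g1 := happ ((I * (t : ℂ) + (L : ℂ)) :: (I * (t : ℂ)) :: xs) (by simp [hxl]; omega) (by
            intro x hx
            rcases List.mem_cons.1 hx with rfl | hx
            · refine ⟨?_, ?_⟩
              · simp
                rw [abs_of_pos hL]
                linarith
              · have := hax1.2.2
                simpa using this
            · rcases List.mem_cons.1 hx with rfl | hx
              · exact hax1.2
              · exact (hax x hx).2) (by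
            intro x hx
            simp only [List.tail_cons] at hx
            rcases List.mem_cons.1 hx with rfl | hx
            · exact hax1.1
            · exact (hax x hx).1)
          have g2 := happ xs (by omega) (fun x hx => (hax x hx).2) (fun x hx => (hax x (List.mem_of_mem_tail hx)).1)
          have g3 := hann t ht xs (by omega) fun x hx => (hax x hx).1
          have e2 : PL w M ((I * (t : ℂ) + (L : ℂ)) :: (I * (t : ℂ)) :: xs) (cf w M lam F) -
              PL w M xs (cf w M lam F) =
              (F xs - PL w M xs (cf w M lam F)) + (F ((I * (t : ℂ) + (L : ℂ)) :: (I * (t : ℂ)) :: xs) - F xs) -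
              (F ((I * (t : ℂ) + (L : ℂ)) :: (I * (t : ℂ)) :: xs) -
                PL w M ((I * (t : ℂ) + (L : ℂ)) :: (I * (t : ℂ)) :: xs) (cf w M lam F)) := by
            ring
          rw [e2]
          refine (norm_sub_le _ _).trans ((add_le_add (norm_add_le _ _) le_rfl).trans ?_)
          linarith
      · have h1 : (∑ k ∈ ZI M, (-1 : ℂ) ^ k * cf w M lam F (k :: (m - k) :: ks)) = 0 := by
          refine Finset.sum_eq_zero fun k hk' => ?_
          rw [hsupp2 _ _ _ (fun h' => hm ?_), mul_zero]
          unfold ZI at *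
          rw [Finset.mem_Icc] at *
          push_cast
          omega
        have h2 : m ≠ 0 := by
          rintro rfl
          exact hm (by simp [ZI])
        rw [h1, if_neg h2, sub_zero, norm_zero]
        positivity
    · push Not at hk
      obtain ⟨l, hl, hl'⟩ := hk
      have h1 : (∑ k ∈ ZI M, (-1 : ℂ) ^ k * cf w M lam F (k :: (m - k) :: ks)) = 0 := by
        refine Finset.sum_eq_zero fun k _ => ?_
        rw [cf_supp F (k := l) (by simp [hl]) hl', mul_zero]
      rw [h1, cf_supp F hl hl']
      simp
      positivity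
  · -- fusion
    intro hfus ks hks m
    have hconst : V * ((2 * A + 1) * η) ≤
        (kap ^ n₀ * (1 + 2 * n₀) + A + V * (2 * A + 1)) * η := by
      have h4 : 0 ≤ kap ^ n₀ * (1 + 2 * (n₀ : ℝ)) := by positivity
      calc _ = V * (2 * A + 1) * η := by ring
        _ ≤ _ := mul_le_mul_of_nonneg_right (by linarith) hη
    have ex1 : ∀ k : ℤ, cexp (I * (w : ℂ) * k * ((2 * L / 3 : ℝ) : ℂ)) =
        cexp (I * Real.pi / 3 * (2 * k)) := by
      intro k
      congr 1
      have : (w : ℂ) * L = Real.pi := by exact_mod_cast hwL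
      push_cast
      linear_combination (I * k * 2 / 3) * this
    have ex2 : ∀ k : ℤ, cexp (I * (w : ℂ) * k * ((L / 3 : ℝ) : ℂ)) =
        cexp (I * Real.pi / 3 * k) := by
      intro k
      congr 1
      have : (w : ℂ) * L = Real.pi := by exact_mod_cast hwL
      push_cast
      linear_combination (I * k / 3) * this
    by_cases hk : ∀ k ∈ ks, k ∈ ZI M
    · by_cases hm : m ∈ ZI (2 * M)
      · have h1 := hV (cf w M lam F)
          (fun m ks => cexp (I * Real.pi / 3 * m) * cf w M lam F (m :: ks))
          ((2 * L / 3 : ℝ) : ℂ) ((2 * A + 1) * η) hsupp2 ks.length (by omega)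
          (fun t ht ts hts htm => ?_) m hm ks rfl hk
        · simp only [ex1] at h1
          exact h1.trans hconst
        · set xs := ts.map fun s : ℝ => I * (s : ℂ) with hxs
          have hxl : xs.length = ks.length := by rw [hxs, List.length_map, hts]
          have hax := haxis ts htm
          have hax1 := haxis [t] (by simpa using ht) (I * (t : ℂ)) (by simp)
          have e1 : EL w (2 * M) (fun m => PL w M xs
              (fun ks => cexp (I * Real.pi / 3 * m) * cf w M lam F (m :: ks))) (I * (t : ℂ)) =
              PL w M ((I * (t : ℂ) + ((L / 3 : ℝ) : ℂ)) :: xs) (cf w M lam F) := by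
            rw [PL_cons, EL_add]
            rw [EL_zero_ext (M := M) (M' := 2 * M) (by omega)
              (a := fun k => PL w M xs (fun ks => cf w M lam F (k :: ks)) *
                cexp (I * (w : ℂ) * k * ((L / 3 : ℝ) : ℂ))) (fun k hk' => ?_)]
            · unfold EL
              refine Finset.sum_congr rfl fun k _ => ?_
              beta_reduce
              rw [PL_const, ex2]
              ring
            · have h3 := PL_congr w M xs (c := fun ks => cf w M lam F (k :: ks))
                (d := fun ks => 0 * cf w M lam F ks)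
                (fun ks _ _ => by rw [cf_supp F (k := k) (by simp) hk', zero_mul])
              rw [h3, PL_const, zero_mul, zero_mul]
          rw [e1]
          have g1 := happ ((I * (t : ℂ) + ((2 * L / 3 : ℝ) : ℂ)) :: (I * (t : ℂ)) :: xs) (by simp [hxl]; omega) (by
            intro x hx
            rcases List.mem_cons.1 hx with rfl | hx
            · refine ⟨?_, ?_⟩
              · have : (I * (t : ℂ) + ((2 * L / 3 : ℝ) : ℂ)).re = 2 * L / 3 := by simp
                rw [this, abs_of_pos (by positivity)]
                linarith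
              · have h5 : (I * (t : ℂ) + ((2 * L / 3 : ℝ) : ℂ)).im = t := by simp
                have := hax1.2.2
                rw [h5]
                simpa using this
            · rcases List.mem_cons.1 hx with rfl | hx
              · exact hax1.2
              · exact (hax x hx).2) (by
            intro x hx
            simp only [List.tail_cons] at hx
            rcases List.mem_cons.1 hx with rfl | hx
            · exact hax1.1
            · exact (hax x hx).1)
          have g2 := happ ((I * (t : ℂ) + ((L / 3 : ℝ) : ℂ)) :: xs) (by simp [hxl]; omega) (by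
            intro x hx
            rcases List.mem_cons.1 hx with rfl | hx
            · refine ⟨?_, ?_⟩
              · have : (I * (t : ℂ) + ((L / 3 : ℝ) : ℂ)).re = L / 3 := by simp
                rw [this, abs_of_pos (by positivity)]
                linarith
              · have h5 : (I * (t : ℂ) + ((L / 3 : ℝ) : ℂ)).im = t := by simp
                have := hax1.2.2
                rw [h5]
                simpa using this
            · exact (hax x hx).2) (by
            intro x hx
            simp only [List.tail_cons] at hx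
            exact (hax x hx).1)
          rw [hfus t ht xs (by omega) fun x hx => (hax x hx).1] at g1
          have e2 : ∀ a b d : ℂ, b - d = (a - d) - (a - b) := fun a b d => by ring
          rw [e2 (F ((I * (t : ℂ) + ((L / 3 : ℝ) : ℂ)) :: xs))]
          refine (norm_sub_le _ _).trans ?_
          linarith
      · have h1 : (∑ k ∈ ZI M, cexp (I * Real.pi / 3 * (2 * k)) * cf w M lam F (k :: (m - k) :: ks)) = 0 := by
          refine Finset.sum_eq_zero fun k hk' => ?_
          rw [hsupp2 _ _ _ (fun h' => hm ?_), mul_zero]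
          unfold ZI at *
          rw [Finset.mem_Icc] at *
          push_cast
          omega
        have h2 : cf w M lam F (m :: ks) = 0 := by
          refine cf_supp F (k := m) (by simp) fun h' => hm ?_
          unfold ZI at *
          rw [Finset.mem_Icc] at *
          push_cast
          omega
        rw [h1, h2, mul_zero, sub_zero, norm_zero]
        positivity
    · push Not at hk
      obtain ⟨l, hl, hl'⟩ := hk
      have h1 : (∑ k ∈ ZI M, cexp (I * Real.pi / 3 * (2 * k)) * cf w M lam F (k :: (m - k) :: ks)) = 0 := by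
        refine Finset.sum_eq_zero fun k _ => ?_
        rw [cf_supp F (k := l) (by simp [hl]) hl', mul_zero]
      rw [h1, cf_supp F (k := l) (by simp [hl]) hl', mul_zero, sub_zero, norm_zero]
      positivity


end IST4
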