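import Pool.Agent.IST.RowA
import Pool.Agent.IST4.Join
import Pool.Agent.IST4.RowsG

/-!
# ISO by rows: `RowA` from the one row expansions (helper4)

* `pe_PL`: 33's polynomial `pe` is the Laurent polynomial `PL`;
* **`rowA_good`**: `Good` and annihilation give `IST.Row.RowA` (33's relations of the coefficients without
  fusion) and the values, with a constant that depends on `M`, `n₀` only.
-/

set_option autoImplicit false

noncomputable section

open Complex Filter Topology Set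
open Pool.Agent.PB.Rec (EL EL_coef EL_add EL_sub EL_le EL_inj)

namespace IST4

theorem pe_PL (w : ℝ) (M : ℕ) (xs : List ℂ) : ∀ c : Multiset ℤ → ℂ,
    PL w M xs (fun ks => c (ks : Multiset ℤ)) = IST.Row.pe M (xs.map fun x => cexp (I * w * x)) c := by
  induction xs with
  | nil =>
    intro c
    rw [PL_nil]
    rfl
  | cons x xs ih =>
    intro c
    rw [PL_cons, List.map_cons]
    unfold IST.Row.pe EL
    refine Finset.sum_congr rfl fun k _ => ?_
    have h1 : PL w M xs (fun ks => c ((k :: ks : List ℤ) : Multiset ℤ)) =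
        PL w M xs (fun ks => (fun κ => c (k ::ₘ κ)) (ks : Multiset ℤ)) := rfl
    beta_reduce
    rw [h1, ih (fun κ => c (k ::ₘ κ)), ← Complex.exp_int_mul, mul_comm]
    congr 2
    ring

theorem pi_L : Real.pi / (3 * Real.pi / 8) = 8 / 3 := by
  have := Real.pi_pos
  field_simp

/-- **the relations of the coefficients**, no fusion, no number of rows -/
theorem rowA_good (M n₀ : ℕ) (hM : 4 ≤ M) :
    ∃ κ : ℝ, 0 < κ ∧ ∀ (R h η B : ℝ) (K : Set ℂ) (F : List ℂ → ℂ), 3 * Real.pi / 8 ≤ R → 0 ≤ h → 0 ≤ η →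
      0 ≤ B → Good (8 / 3) M R h η B K n₀ F → (∀ t : ℝ, |t| ≤ h + 1 → I * (t : ℂ) ∈ K) →
      Ann (3 * Real.pi / 8) n₀ K η F → ∃ c : Multiset ℤ → ℂ,
      IST.Row.RowA c n₀ M (κ * B) (Real.exp (-(8 / 3 * h))) (κ * η) ∧
      ∀ xs : List ℂ, xs.length ≤ n₀ → (∀ x ∈ xs, |x.re| ≤ R ∧ |x.im| ≤ 1) → (∀ x ∈ xs.tail, x ∈ K) →
        ‖F xs - IST.Row.pe M (xs.map fun x => cexp (I * ((8 / 3 : ℝ) : ℂ) * x)) c‖ ≤ κ * η := by
  have hpi := Real.pi_pos
  obtain ⟨κ, hκ, hgood⟩ := rows_good (L := 3 * Real.pi / 8) (by positivity) M n₀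
  rw [pi_L] at hgood
  refine ⟨κ, hκ, fun R h η B K F hR hh hη hB hG hK hann => ?_⟩
  obtain ⟨c, hperm, hsupp, hbd, happ, hannc, -⟩ := hgood R h η B K F hR hh hη hB hG hK hann
  set c' : Multiset ℤ → ℂ := fun κ' => c κ'.toList with hc'
  have hcc : ∀ ks : List ℤ, c' (ks : Multiset ℤ) = c ks := by
    intro ks
    exact hperm _ _ (Multiset.coe_eq_coe.1 (Multiset.coe_toList _))
  have hcc2 : ∀ (k l : ℤ) (ks : List ℤ), c' (k ::ₘ l ::ₘ (ks : Multiset ℤ)) = c (k :: l :: ks) := by
    intro k l ks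
    rw [Multiset.cons_coe, Multiset.cons_coe, hcc]
  have hsum : ∀ (j : ℤ) (φ : ℤ → ℂ) (ks : List ℤ), (∑ k ∈ IST.Row.bx M j, φ k * c (k :: (j - k) :: ks)) =
      ∑ k ∈ ZI M, φ k * c (k :: (j - k) :: ks) := by
    intro j φ ks
    unfold IST.Row.bx
    rw [Finset.sum_filter]
    refine Finset.sum_congr rfl fun k _ => ?_
    split_ifs with h1
    · rfl
    · rw [hsupp (k :: (j - k) :: ks) (j - k) (by simp) h1, mul_zero]
  refine ⟨c', ⟨by positivity, by positivity, ?_, by positivity, hM, ?_, ?_, ?_⟩, ?_⟩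
  · refine Real.exp_le_one_iff.2 ?_
    linarith
  · intro κ' hκ'
    induction κ' using Quot.inductionOn with
    | h ks =>
      have hκ'' : ks.length ≤ n₀ := hκ'
      have h1 := hbd ks hκ''
      have h2 : c' (Quot.mk _ ks) = c ks := hcc ks
      rw [h2]
      refine h1.trans (le_of_eq ?_)
      have h3 : (Real.exp (-(8 / 3 * h))) ^ IST.Row.wt (Quot.mk _ ks) =
          Real.exp (-(8 / 3 * h * wt ks)) := by
        rw [wt_row ks, ← Real.exp_nat_mul]
        congr 1
        have h4 : (IST.Row.wt (Quot.mk _ ks) : ℝ) = (IST.Row.wt (ks : Multiset ℤ) : ℝ) := rfl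
        rw [h4]
        ring
      rw [h3]
      ring
  · intro κ' hκ'
    induction κ' using Quot.inductionOn with
    | h ks =>
      obtain ⟨k, hk, hk'⟩ := hκ'
      have h2 : c' (Quot.mk _ ks) = c ks := hcc ks
      rw [h2]
      refine hsupp ks k hk fun h' => ?_
      unfold ZI at h'
      rw [Finset.mem_Icc] at h'
      have := abs_le.2 h'
      omega
  · intro κ' hκ' j
    induction κ' using Quot.inductionOn with
    | h ks =>
      have hκ'' : ks.length + 2 ≤ n₀ := hκ'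
      have h1 := hannc ks hκ'' j
      have e1 : ∀ k : ℤ, c' (k ::ₘ (j - k) ::ₘ (Quot.mk _ ks)) = c (k :: (j - k) :: ks) := fun k => hcc2 k _ ks
      have e2 : c' (Quot.mk _ ks) = c ks := hcc ks
      simp only [e1, e2]
      rw [hsum j (fun k => (-1 : ℂ) ^ k) ks]
      exact h1
  · intro xs h1 h2 h3
    rw [← pe_PL]
    have e1 : (fun ks : List ℤ => c' (ks : Multiset ℤ)) = c := funext hcc
    rw [e1]
    exact happ xs h1 h2 h3

end IST4
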