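import Pool.Agent.IST4.Van

/-!
# ISO by rows: the coefficients in several extra rows (helper4)

`Good w M R h η B K n F`: `F : List ℂ → ℂ` does not depend on the order, every `x ↦ F (x :: xs)` (`xs ⊆ K`,
`xs.length < n`) is a Laurent polynomial of degree `M` up to `η` on `|Re x| ≤ R`, `|Im x| ≤ h + 1`, and
`|F| ≤ B` on the imaginary axis up to the height `h + 1`.

* `cf lam F ks`: the coefficients (Vandermonde functional in every row);
* `cf_perm`, `cf_supp`, **`cf_le`** (`|cf ks| ≤ κ^n (B e^{-w h |ks|} + 2 n η)`), **`cf_app`**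
  (`F (x :: xs)` for one wide row and the others in `K`), **`cf_rel`** (exact relations become identities of
  coefficients).
-/

set_option autoImplicit false

noncomputable section

open Complex Filter Topology Set
open Pool.Agent.PB.Rec (EL EL_coef EL_add EL_sub EL_le EL_inj)

namespace IST4

/-- the multilinear functional: exponent and height of the nodes for every row -/
def CF (w : ℝ) (M : ℕ) (lam : ℤ → Fin (2 * M + 1) → ℂ) : List (ℤ × ℝ) → (List ℂ → ℂ) → ℂ
  | [], F => F []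
  | p :: ps, F => ∑ j, (cexp ((w * p.1 * p.2 : ℝ) : ℂ) * lam p.1 j) *
      CF w M lam ps (fun xs => F ((nd M j + I * (p.2 : ℂ)) :: xs))

/-- the hypotheses -/
structure Good (w : ℝ) (M : ℕ) (R h η B : ℝ) (K : Set ℂ) (n : ℕ) (F : List ℂ → ℂ) : Prop where
  perm : ∀ xs ys : List ℂ, xs.Perm ys → F xs = F ys
  ex : ∀ xs : List ℂ, xs.length < n → (∀ x ∈ xs, x ∈ K) → ∃ a : ℤ → ℂ, ∀ x : ℂ, |x.re| ≤ R →
    |x.im| ≤ h + 1 → ‖F (x :: xs) - EL w M a x‖ ≤ η
  bd : ∀ xs : List ℂ, xs.length ≤ n → (∀ x ∈ xs, ∃ t : ℝ, |t| ≤ h + 1 ∧ x = I * (t : ℂ)) → ‖F xs‖ ≤ B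

variable {w : ℝ} {M : ℕ} {R h η B : ℝ} {K : Set ℂ} {n : ℕ} {F : List ℂ → ℂ}
  {lam : ℤ → Fin (2 * M + 1) → ℂ}

theorem nd_eq (M : ℕ) (j : Fin (2 * M + 1)) (g : ℝ) :
    nd M j + I * (g : ℂ) = I * (((j : ℝ) / (2 * M + 1) + g : ℝ) : ℂ) := by
  unfold nd
  push_cast
  ring

theorem nd_t (M : ℕ) (j : Fin (2 * M + 1)) : 0 ≤ (j : ℝ) / (2 * M + 1) ∧ (j : ℝ) / (2 * M + 1) ≤ 1 := by
  refine ⟨by positivity, ?_⟩
  rw [div_le_one (by positivity)]
  have : ((j : ℕ) : ℝ) ≤ 2 * M := by exact_mod_cast Nat.lt_succ_iff.1 j.2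
  linarith

theorem nd_abs {g : ℝ} (hg : |g| ≤ h) (j : Fin (2 * M + 1)) :
    |(j : ℝ) / (2 * M + 1) + g| ≤ h + 1 := by
  have h1 := nd_t M j
  rw [abs_le] at hg ⊢
  constructor <;> linarith [hg.1, hg.2, h1.1, h1.2]

theorem Good.cons (hF : Good w M R h η B K (n + 1) F) {t : ℝ} (ht : |t| ≤ h + 1) (hK : I * (t : ℂ) ∈ K) :
    Good w M R h η B K n (fun xs => F ((I * (t : ℂ)) :: xs)) where
  perm xs ys hxy := hF.perm _ _ (hxy.cons _)
  ex xs hn hx := by
    obtain ⟨a, ha⟩ := hF.ex ((I * (t : ℂ)) :: xs) (by simpa using hn) (by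
      intro x hx'
      rcases List.mem_cons.1 hx' with rfl | h'
      · exact hK
      · exact hx x h')
    refine ⟨a, fun x h1 h2 => ?_⟩
    have := ha x h1 h2
    beta_reduce
    rw [hF.perm _ _ (List.Perm.swap x (I * (t : ℂ)) xs)]
    exact this
  bd xs hn hx := hF.bd _ (by simpa using hn) (by
    intro x hx'
    rcases List.mem_cons.1 hx' with rfl | h'
    · exact ⟨t, ht, rfl⟩
    · exact hx x h')

theorem Good.mono (hF : Good w M R h η B K n F) {n' : ℕ} (hn : n' ≤ n) : Good w M R h η B K n' F where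
  perm := hF.perm
  ex xs h1 h2 := hF.ex xs (lt_of_lt_of_le h1 hn) h2
  bd xs h1 h2 := hF.bd xs (h1.trans hn) h2

theorem CF_perm {ps qs : List (ℤ × ℝ)} (hpq : ps.Perm qs) : ∀ {F : List ℂ → ℂ},
    (∀ xs ys : List ℂ, xs.Perm ys → F xs = F ys) → CF w M lam ps F = CF w M lam qs F := by
  induction hpq with
  | nil => intro F _; rfl
  | cons p _ ih =>
    intro F hF
    simp only [CF]
    refine Finset.sum_congr rfl fun j _ => ?_
    rw [ih fun xs ys h => hF _ _ (h.cons _)]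
  | swap p q l =>
    intro F hF
    simp only [CF, Finset.mul_sum]
    rw [Finset.sum_comm]
    refine Finset.sum_congr rfl fun i _ => Finset.sum_congr rfl fun j _ => ?_
    have : (fun xs => F ((nd M j + I * (q.2 : ℂ)) :: (nd M i + I * (p.2 : ℂ)) :: xs)) =
        fun xs => F ((nd M i + I * (p.2 : ℂ)) :: (nd M j + I * (q.2 : ℂ)) :: xs) :=
      funext fun xs => hF _ _ (List.Perm.swap _ _ _)
    rw [this]
    ring
  | trans _ _ ih1 ih2 =>
    intro F hF
    rw [ih1 hF, ih2 hF]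

theorem CF_sum {ι : Type} (S : Finset ι) (r : ι → ℂ) (ps : List (ℤ × ℝ)) : ∀ G : ι → List ℂ → ℂ,
    CF w M lam ps (fun xs => ∑ i ∈ S, r i * G i xs) = ∑ i ∈ S, r i * CF w M lam ps (G i) := by
  induction ps with
  | nil => intro G; rfl
  | cons p ps ih =>
    intro G
    have hh : ∀ j, CF w M lam ps (fun xs => ∑ i ∈ S, r i * G i ((nd M j + I * (p.2 : ℂ)) :: xs)) =
        ∑ i ∈ S, r i * CF w M lam ps (fun xs => G i ((nd M j + I * (p.2 : ℂ)) :: xs)) :=
      fun j => ih (fun i xs => G i ((nd M j + I * (p.2 : ℂ)) :: xs))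
    simp only [CF, hh, Finset.mul_sum]
    rw [Finset.sum_comm]
    exact Finset.sum_congr rfl fun i _ => Finset.sum_congr rfl fun j _ => by ring

theorem CF_sub (ps : List (ℤ × ℝ)) : ∀ G G' : List ℂ → ℂ,
    CF w M lam ps (fun xs => G xs - G' xs) = CF w M lam ps G - CF w M lam ps G' := by
  induction ps with
  | nil => intro G G'; rfl
  | cons p ps ih =>
    intro G G'
    simp only [CF]
    rw [← Finset.sum_sub_distrib]
    refine Finset.sum_congr rfl fun j _ => ?_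
    rw [ih (fun xs => G ((nd M j + I * (p.2 : ℂ)) :: xs)) (fun xs => G' ((nd M j + I * (p.2 : ℂ)) :: xs))]
    ring

/-- the exponent of the decay -/
def wt (ks : List ℤ) : ℝ := (ks.map fun k => |(k : ℝ)|).sum

theorem wt_nil : wt [] = 0 := rfl

theorem wt_cons (k : ℤ) (ks : List ℤ) : wt (k :: ks) = |(k : ℝ)| + wt ks := by
  simp [wt]

theorem wt_nonneg (ks : List ℤ) : 0 ≤ wt ks := by
  induction ks with
  | nil => simp [wt]
  | cons k ks ih => rw [wt_cons]; positivity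

/-- exponents with the good height -/
def up (h : ℝ) (k : ℤ) : ℤ × ℝ := (k, -h * (SignType.sign (k : ℝ) : ℝ))

theorem up_exp (h : ℝ) (k : ℤ) : ((up h k).1 : ℝ) * (up h k).2 = -(h * |(k : ℝ)|) := by
  unfold up
  simp only
  have := sign_mul_self (k : ℝ)
  linear_combination (-h) * this

theorem up_abs (hh : 0 ≤ h) (k : ℤ) : |(up h k).2| ≤ h := by
  unfold up
  simp only
  rw [abs_mul, abs_neg, abs_of_nonneg hh]
  have : |((SignType.sign (k : ℝ) : SignType) : ℝ)| ≤ 1 := by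
    rcases lt_trichotomy (k : ℝ) 0 with h1 | h1 | h1
    · rw [sign_neg h1]; simp
    · rw [h1, sign_zero]; simp
    · rw [sign_pos h1]; simp
  calc _ ≤ h * 1 := mul_le_mul_of_nonneg_left this hh
    _ = h := mul_one h

theorem CF_le (hw : 0 < w) (hh : 0 ≤ h) {kap : ℝ} (hkap : ∀ k ∈ ZI M, ∑ j, ‖lam k j‖ ≤ kap) (h0 : 0 ≤ kap)
    (ks : List ℤ) (hks : ∀ k ∈ ks, k ∈ ZI M) : ∀ {G : List ℂ → ℂ} {A : ℝ},
    (∀ xs : List ℂ, xs.length = ks.length → (∀ x ∈ xs, ∃ t : ℝ, |t| ≤ h + 1 ∧ x = I * (t : ℂ)) → ‖G xs‖ ≤ A) →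
    ‖CF w M lam (ks.map (up h)) G‖ ≤ kap ^ ks.length * Real.exp (-(w * h * wt ks)) * A := by
  induction ks with
  | nil =>
    intro G A hG
    simpa [CF, wt_nil] using hG [] rfl (by simp)
  | cons k ks ih =>
    intro G A hG
    have hks' : ∀ k ∈ ks, k ∈ ZI M := fun k' h' => hks k' (List.mem_cons_of_mem _ h')
    have hk : k ∈ ZI M := hks k List.mem_cons_self
    have h1 : ∀ j : Fin (2 * M + 1), ‖CF w M lam (ks.map (up h)) (fun xs => G ((nd M j + I * ((up h k).2 : ℂ)) :: xs))‖ ≤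
        kap ^ ks.length * Real.exp (-(w * h * wt ks)) * A := by
      intro j
      refine ih hks' fun xs hx1 hx2 => hG _ (by simp [hx1]) ?_
      intro x hx
      rcases List.mem_cons.1 hx with rfl | h'
      · exact ⟨_, nd_abs (up_abs hh k) j, nd_eq M j _⟩
      · exact hx2 x h'
    have hX : 0 ≤ kap ^ ks.length * Real.exp (-(w * h * wt ks)) * A :=
      (norm_nonneg _).trans (h1 ⟨0, by omega⟩)
    rw [List.map_cons, CF]
    refine (norm_sum_le _ _).trans ?_
    calc _ ≤ ∑ j, Real.exp (-(w * h * |(k : ℝ)|)) * ‖lam k j‖ * (kap ^ ks.length * Real.exp (-(w * h * wt ks)) * A) := by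
          refine Finset.sum_le_sum fun j _ => ?_
          rw [norm_mul, norm_mul]
          refine mul_le_mul ?_ (h1 j) (norm_nonneg _) (by positivity)
          refine mul_le_mul_of_nonneg_right (le_of_eq ?_) (norm_nonneg _)
          rw [Complex.norm_exp, Complex.ofReal_re, mul_assoc, up_exp]
          congr 1
          ring
      _ = Real.exp (-(w * h * |(k : ℝ)|)) * (∑ j, ‖lam k j‖) * (kap ^ ks.length * Real.exp (-(w * h * wt ks)) * A) := by
          rw [← Finset.sum_mul, ← Finset.mul_sum]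
      _ ≤ Real.exp (-(w * h * |(k : ℝ)|)) * kap * (kap ^ ks.length * Real.exp (-(w * h * wt ks)) * A) := by
          refine mul_le_mul_of_nonneg_right ?_ hX
          exact mul_le_mul_of_nonneg_left (hkap k hk) (Real.exp_nonneg _)
      _ = _ := by
          rw [List.length_cons, wt_cons, pow_succ,
            show -(w * h * (|(k : ℝ)| + wt ks)) = -(w * h * |(k : ℝ)|) + -(w * h * wt ks) by ring, Real.exp_add]
          ring

/-- one row: the functional reads the coefficient, at every height -/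
theorem one (hlam : ∀ a : ℤ → ℂ, ∀ k ∈ ZI M, ∑ j, lam k j * EL w M a (nd M j) = a k)
    {kap : ℝ} (hkap : ∀ k ∈ ZI M, ∑ j, ‖lam k j‖ ≤ kap) (hη : 0 ≤ η)
    {g : ℂ → ℂ} {a : ℤ → ℂ} (hg : ∀ t : ℝ, |t| ≤ h + 1 → ‖g (I * (t : ℂ)) - EL w M a (I * (t : ℂ))‖ ≤ η)
    {k : ℤ} (hk : k ∈ ZI M) {y : ℝ} (hy : |y| ≤ h) (hky : w * k * y ≤ 0) :
    ‖(∑ j, cexp ((w * k * y : ℝ) : ℂ) * lam k j * g (nd M j + I * (y : ℂ))) - a k‖ ≤ kap * η := by
  have h1 : a k = ∑ j, cexp ((w * k * y : ℝ) : ℂ) * lam k j * EL w M a (nd M j + I * (y : ℂ)) := by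
    have h2 := hlam (fun k => a k * cexp (I * w * k * (I * (y : ℂ)))) k hk
    simp only [← EL_add] at h2
    have h3 : ∑ j, cexp ((w * k * y : ℝ) : ℂ) * lam k j * EL w M a (nd M j + I * (y : ℂ)) =
        cexp ((w * k * y : ℝ) : ℂ) * ∑ j, lam k j * EL w M a (nd M j + I * (y : ℂ)) := by
      rw [Finset.mul_sum]
      exact Finset.sum_congr rfl fun j _ => by ring
    rw [h3, h2, mul_left_comm, ← Complex.exp_add]
    have : ((w * k * y : ℝ) : ℂ) + I * w * k * (I * (y : ℂ)) = 0 := by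
      push_cast
      linear_combination (w * k * y : ℂ) * I_sq
    rw [this, Complex.exp_zero, mul_one]
  rw [h1, ← Finset.sum_sub_distrib]
  refine (norm_sum_le _ _).trans ?_
  calc _ ≤ ∑ j, ‖lam k j‖ * η := by
        refine Finset.sum_le_sum fun j _ => ?_
        rw [← mul_sub, norm_mul, norm_mul, Complex.norm_exp, Complex.ofReal_re]
        have h4 : Real.exp (w * k * y) ≤ 1 := Real.exp_le_one_iff.2 hky
        have h5 := hg _ (nd_abs hy j)
        rw [← nd_eq] at h5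
        calc _ ≤ 1 * ‖lam k j‖ * η := by gcongr
          _ = _ := by ring
    _ = (∑ j, ‖lam k j‖) * η := by rw [Finset.sum_mul]
    _ ≤ _ := mul_le_mul_of_nonneg_right (hkap k hk) hη

/-- exponents at height zero -/
def lo (k : ℤ) : ℤ × ℝ := (k, 0)

/-- changing the heights changes the coefficients by `2 n κ^n η` -/
theorem CF_diff (hw : 0 < w) (hh : 0 ≤ h) (hη : 0 ≤ η)
    (hlam : ∀ a : ℤ → ℂ, ∀ k ∈ ZI M, ∑ j, lam k j * EL w M a (nd M j) = a k)
    {kap : ℝ} (hkap : ∀ k ∈ ZI M, ∑ j, ‖lam k j‖ ≤ kap) (h1 : 1 ≤ kap) (hR : 0 ≤ R)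
    (hK : ∀ t : ℝ, |t| ≤ h + 1 → I * (t : ℂ) ∈ K)
    (ks : List ℤ) (hks : ∀ k ∈ ks, k ∈ ZI M) : ∀ {F : List ℂ → ℂ}, Good w M R h η B K ks.length F →
    ‖CF w M lam (ks.map lo) F - CF w M lam (ks.map (up h)) F‖ ≤ 2 * ks.length * kap ^ ks.length * η := by
  induction ks with
  | nil => intro F _; simp [CF]
  | cons k ks ih =>
    intro F hF
    have hks' : ∀ k ∈ ks, k ∈ ZI M := fun k' h' => hks k' (List.mem_cons_of_mem _ h')
    have hk : k ∈ ZI M := hks k List.mem_cons_self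
    have h0 : 0 ≤ kap := by linarith
    rw [List.map_cons, List.map_cons, CF, CF]
    -- the functions of the remaining rows
    set F0 : Fin (2 * M + 1) → List ℂ → ℂ := fun j xs => F ((nd M j + I * ((lo k).2 : ℂ)) :: xs) with hF0
    set F1 : Fin (2 * M + 1) → List ℂ → ℂ := fun j xs => F ((nd M j + I * ((up h k).2 : ℂ)) :: xs) with hF1
    have hG0 : ∀ j, Good w M R h η B K ks.length (F0 j) := by
      intro j
      have h2 : |(j : ℝ) / (2 * M + 1) + (lo k).2| ≤ h + 1 := nd_abs (by simpa [lo] using hh) j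
      have := Good.cons (n := ks.length) (by simpa using hF) h2 (hK _ h2)
      rw [← nd_eq] at this
      exact this
    have e : (∑ j, cexp ((w * (lo k).1 * (lo k).2 : ℝ) : ℂ) * lam (lo k).1 j * CF w M lam (ks.map lo) (F0 j)) -
        ∑ j, cexp ((w * (up h k).1 * (up h k).2 : ℝ) : ℂ) * lam (up h k).1 j * CF w M lam (ks.map (up h)) (F1 j) =
        (∑ j, lam k j * (CF w M lam (ks.map lo) (F0 j) - CF w M lam (ks.map (up h)) (F0 j))) +
        CF w M lam (ks.map (up h)) (fun xs => (∑ j, (cexp ((w * k * (0 : ℝ) : ℝ) : ℂ) * lam k j) * F0 j xs) -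
          ∑ j, (cexp ((w * k * (up h k).2 : ℝ) : ℂ) * lam k j) * F1 j xs) := by
      rw [CF_sub, CF_sum, CF_sum]
      simp only [mul_sub, Finset.sum_sub_distrib]
      have e1 : (lo k).1 = k := rfl
      have e2 : (lo k).2 = 0 := rfl
      have e3 : (up h k).1 = k := rfl
      rw [e1, e2, e3]
      simp
    rw [e]
    refine (norm_add_le _ _).trans ?_
    have hA : ‖∑ j, lam k j * (CF w M lam (ks.map lo) (F0 j) - CF w M lam (ks.map (up h)) (F0 j))‖ ≤
        kap * (2 * ks.length * kap ^ ks.length * η) := by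
      refine (norm_sum_le _ _).trans ?_
      calc _ ≤ ∑ j, ‖lam k j‖ * (2 * ks.length * kap ^ ks.length * η) := by
            refine Finset.sum_le_sum fun j _ => ?_
            rw [norm_mul]
            exact mul_le_mul_of_nonneg_left (ih hks' (hG0 j)) (norm_nonneg _)
        _ = (∑ j, ‖lam k j‖) * (2 * ks.length * kap ^ ks.length * η) := by rw [Finset.sum_mul]
        _ ≤ _ := mul_le_mul_of_nonneg_right (hkap k hk) (by positivity)
    have hB : ‖CF w M lam (ks.map (up h)) (fun xs => (∑ j, (cexp ((w * k * (0 : ℝ) : ℝ) : ℂ) * lam k j) * F0 j xs) -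
          ∑ j, (cexp ((w * k * (up h k).2 : ℝ) : ℂ) * lam k j) * F1 j xs)‖ ≤
        kap ^ ks.length * Real.exp (-(w * h * wt ks)) * (2 * (kap * η)) := by
      refine CF_le hw hh hkap h0 ks hks' fun xs hx1 hx2 => ?_
      obtain ⟨a, ha⟩ := hF.ex xs (by simp [hx1]) (by
        intro x hx
        obtain ⟨t, ht, rfl⟩ := hx2 x hx
        exact hK t ht)
      have hg : ∀ t : ℝ, |t| ≤ h + 1 → ‖F (I * (t : ℂ) :: xs) - EL w M a (I * (t : ℂ))‖ ≤ η := fun t ht =>
        ha _ (by simpa using hR) (by simpa using ht)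
      have g0 := one (g := fun x => F (x :: xs)) hlam hkap hη hg hk (y := 0) (by simpa using hh) (by simp)
      have hup : w * k * (up h k).2 ≤ 0 := by
        have := up_exp h k
        have h3 : w * k * (up h k).2 = w * (((up h k).1 : ℝ) * (up h k).2) := by
          show w * k * (up h k).2 = w * ((k : ℝ) * (up h k).2)
          ring
        rw [h3, this]
        have : 0 ≤ w * (h * |(k : ℝ)|) := by positivity
        linarith
      have g1 := one (g := fun x => F (x :: xs)) hlam hkap hη hg hk (y := (up h k).2) (up_abs hh k) hup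
      have e4 : (∑ j, (cexp ((w * k * (0 : ℝ) : ℝ) : ℂ) * lam k j) * F0 j xs) -
          (∑ j, (cexp ((w * k * (up h k).2 : ℝ) : ℂ) * lam k j) * F1 j xs) =
          ((∑ j, (cexp ((w * k * (0 : ℝ) : ℝ) : ℂ) * lam k j) * F0 j xs) - a k) -
          ((∑ j, (cexp ((w * k * (up h k).2 : ℝ) : ℂ) * lam k j) * F1 j xs) - a k) := by ring
      rw [e4]
      refine (norm_sub_le _ _).trans ?_
      have g0' : ‖(∑ j, (cexp ((w * k * (0 : ℝ) : ℝ) : ℂ) * lam k j) * F0 j xs) - a k‖ ≤ kap * η := g0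
      have g1' : ‖(∑ j, (cexp ((w * k * (up h k).2 : ℝ) : ℂ) * lam k j) * F1 j xs) - a k‖ ≤ kap * η := g1
      linarith
    have hC : kap ^ ks.length * Real.exp (-(w * h * wt ks)) * (2 * (kap * η)) ≤ 2 * kap ^ (ks.length + 1) * η := by
      have h6 : Real.exp (-(w * h * wt ks)) ≤ 1 := by
        refine Real.exp_le_one_iff.2 ?_
        have := wt_nonneg ks
        have : 0 ≤ w * h * wt ks := by positivity
        linarith
      calc _ ≤ kap ^ ks.length * 1 * (2 * (kap * η)) := by gcongr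
        _ = _ := by ring
    calc _ ≤ kap * (2 * ks.length * kap ^ ks.length * η) + 2 * kap ^ (ks.length + 1) * η :=
          add_le_add hA (hB.trans hC)
      _ = _ := by
          rw [List.length_cons]
          push_cast
          ring

open Classical in
/-- the coefficients -/
def cf (w : ℝ) (M : ℕ) (lam : ℤ → Fin (2 * M + 1) → ℂ) (F : List ℂ → ℂ) (ks : List ℤ) : ℂ :=
  if ∀ k ∈ ks, k ∈ ZI M then CF w M lam (ks.map lo) F else 0

theorem cf_supp (F : List ℂ → ℂ) {ks : List ℤ} {k : ℤ} (hk : k ∈ ks) (hk' : k ∉ ZI M) : cf w M lam F ks = 0 := by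
  unfold cf
  rw [if_neg]
  intro h'
  exact hk' (h' k hk)

theorem cf_eq (F : List ℂ → ℂ) {ks : List ℤ} (hk : ∀ k ∈ ks, k ∈ ZI M) :
    cf w M lam F ks = CF w M lam (ks.map lo) F := by
  unfold cf
  rw [if_pos hk]

theorem cf_perm {F : List ℂ → ℂ} (hF : ∀ xs ys : List ℂ, xs.Perm ys → F xs = F ys) {ks ls : List ℤ}
    (h' : ks.Perm ls) : cf w M lam F ks = cf w M lam F ls := by
  unfold cf
  have e : (∀ k ∈ ks, k ∈ ZI M) ↔ ∀ k ∈ ls, k ∈ ZI M :=
    ⟨fun h1 k hk => h1 k (h'.mem_iff.2 hk), fun h1 k hk => h1 k (h'.mem_iff.1 hk)⟩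
  by_cases hc : ∀ k ∈ ks, k ∈ ZI M
  · rw [if_pos hc, if_pos (e.1 hc)]
    exact CF_perm (h'.map _) hF
  · rw [if_neg hc, if_neg fun h1 => hc (e.2 h1)]

/-- **the size of the coefficients** -/
theorem cf_le (hw : 0 < w) (hh : 0 ≤ h) (hη : 0 ≤ η)
    (hlam : ∀ a : ℤ → ℂ, ∀ k ∈ ZI M, ∑ j, lam k j * EL w M a (nd M j) = a k)
    {kap : ℝ} (hkap : ∀ k ∈ ZI M, ∑ j, ‖lam k j‖ ≤ kap) (h1 : 1 ≤ kap) (hR : 0 ≤ R) (hB : 0 ≤ B)
    (hK : ∀ t : ℝ, |t| ≤ h + 1 → I * (t : ℂ) ∈ K) (hF : Good w M R h η B K n F)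
    (ks : List ℤ) (hn : ks.length ≤ n) :
    ‖cf w M lam F ks‖ ≤ kap ^ n * (Real.exp (-(w * h * wt ks)) * B + 2 * n * η) := by
  have h0 : 0 ≤ kap := by linarith
  by_cases hc : ∀ k ∈ ks, k ∈ ZI M
  · rw [cf_eq F hc]
    have g1 := CF_diff hw hh hη hlam hkap h1 hR hK ks hc (hF.mono hn)
    have g2 := CF_le (lam := lam) hw hh hkap h0 ks hc (G := F) (A := B) fun xs hx1 hx2 =>
      hF.bd xs (by rw [hx1]; exact hn) hx2
    have e : CF w M lam (ks.map lo) F = (CF w M lam (ks.map lo) F - CF w M lam (ks.map (up h)) F) +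
        CF w M lam (ks.map (up h)) F := by ring
    rw [e]
    refine (norm_add_le _ _).trans ?_
    have h2 : kap ^ ks.length ≤ kap ^ n := pow_le_pow_right₀ h1 hn
    have h3 : (ks.length : ℝ) ≤ n := by exact_mod_cast hn
    calc _ ≤ 2 * ks.length * kap ^ ks.length * η + kap ^ ks.length * Real.exp (-(w * h * wt ks)) * B :=
          add_le_add g1 g2
      _ ≤ 2 * n * kap ^ n * η + kap ^ n * Real.exp (-(w * h * wt ks)) * B := by gcongr
      _ = _ := by ring
  · have : cf w M lam F ks = 0 := by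
      unfold cf
      rw [if_neg hc]
    rw [this, norm_zero]
    positivity

end IST4
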