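import Mathlib

/-!
# Zeros with multiplicity by perturbation (helper4)

* `lim_div`: `(y - a n) * E n y → (y - a) * E y` locally uniformly, `a n → a`, gives `E n → E` locally
  uniformly;
* **`mult_lim`**: `D n → D` locally uniformly on the open set `U`, `c n j → c j ∈ U`, `c n` injective and
  `D n (c n j) = 0` for all `j` give `D y = (∏ j, (y - c j)) * Q y` with `Q` differentiable on `U`
  (the limits `c j` may coincide).
-/

set_option autoImplicit false

noncomputable section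

open Complex Filter Topology Set Metric

namespace IST4

variable {α : Type*} {l : Filter α} {U : Set ℂ}

/-- **division by a moving linear factor** -/
theorem lim_div (hU : IsOpen U) {a : ℂ} {an : α → ℂ} (han : Tendsto an l (𝓝 a))
    {D E : ℂ → ℂ} {Dn En : α → ℂ → ℂ} (hD : DifferentiableOn ℂ D U) (hE : DifferentiableOn ℂ E U)
    (hEn : ∀ᶠ n in l, DifferentiableOn ℂ (En n) U) (hDE : ∀ y ∈ U, D y = (y - a) * E y)
    (hDEn : ∀ᶠ n in l, ∀ y ∈ U, Dn n y = (y - an n) * En n y)
    (hlim : TendstoLocallyUniformlyOn Dn D l U) : TendstoLocallyUniformlyOn En E l U := by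
  rw [Metric.tendstoLocallyUniformlyOn_iff]
  intro ε hε y0 hy0
  obtain ⟨r0, hr0, hball⟩ := Metric.nhds_basis_closedBall.mem_iff.1 (hU.mem_nhds hy0)
  obtain ⟨r, hr, hrr, hra⟩ : ∃ r, 0 < r ∧ r ≤ r0 ∧ r ≠ dist a y0 := by
    by_cases h : r0 = dist a y0
    · exact ⟨r0 / 2, by positivity, by linarith, fun h2 => by linarith⟩
    · exact ⟨r0, hr0, le_rfl, h⟩
  have hcl : closedBall y0 r ⊆ U := (closedBall_subset_closedBall hrr).trans hball
  have hsp : sphere y0 r ⊆ U := sphere_subset_closedBall.trans hcl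
  set δ : ℝ := |r - dist a y0| with hδdef
  have hδ : 0 < δ := abs_pos.2 (sub_ne_zero.2 hra)
  have hfar : ∀ y ∈ sphere y0 r, δ ≤ ‖y - a‖ := by
    intro y hy
    rw [mem_sphere] at hy
    rw [hδdef, ← hy, ← dist_eq_norm]
    have h1 : |dist y y0 - dist a y0| ≤ dist y a := abs_dist_sub_le y a y0
    exact h1
  obtain ⟨B, hB⟩ : ∃ B, ∀ y ∈ sphere y0 r, ‖D y‖ ≤ B :=
    (isCompact_sphere y0 r).exists_bound_of_continuousOn (hD.continuousOn.mono hsp)
  set B' := max B 0 with hB'
  have hB0 : 0 ≤ B' := le_max_right _ _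
  have hlim' : TendstoUniformlyOn Dn D l (sphere y0 r) :=
    (tendstoLocallyUniformlyOn_iff_forall_isCompact hU).1 hlim _ hsp (isCompact_sphere y0 r)
  rw [Metric.tendstoUniformlyOn_iff] at hlim'
  set ε1 : ℝ := ε * δ / 8 with hε1
  have hε1p : 0 < ε1 := by positivity
  set ε2 : ℝ := min (δ / 2) (ε * δ ^ 2 / (8 * (B' + 1))) with hε2
  have hε2p : 0 < ε2 := by
    rw [hε2]
    exact lt_min (by positivity) (by positivity)
  have han' : ∀ᶠ n in l, dist (an n) a < ε2 := Metric.tendsto_nhds.1 han ε2 hε2p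
  refine ⟨ball y0 r, mem_nhdsWithin_of_mem_nhds (ball_mem_nhds y0 hr), ?_⟩
  filter_upwards [hlim' ε1 hε1p, han', hEn, hDEn] with n h1 h2 h3 h4
  have hbd : ∀ y ∈ frontier (ball y0 r), ‖En n y - E y‖ ≤ ε / 2 := by
    intro y hy
    rw [frontier_ball y0 hr.ne'] at hy
    have hyU := hsp hy
    have f1 := hfar y hy
    have f2 : δ / 2 ≤ ‖y - an n‖ := by
      have h5 : ‖an n - a‖ < δ / 2 := by
        rw [← dist_eq_norm]
        exact lt_of_lt_of_le h2 (min_le_left _ _)
      have h6 : ‖y - a‖ ≤ ‖y - an n‖ + ‖an n - a‖ := by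
        have : y - a = (y - an n) + (an n - a) := by ring
        rw [this]
        exact norm_add_le _ _
      linarith
    have n1 : y - a ≠ 0 := by
      intro h
      rw [h, norm_zero] at f1
      linarith
    have n2 : y - an n ≠ 0 := by
      intro h
      rw [h, norm_zero] at f2
      linarith
    have e1 : En n y = Dn n y / (y - an n) := by
      rw [h4 y hyU]
      field_simp
    have e2 : E y = D y / (y - a) := by
      rw [hDE y hyU]
      field_simp
    have e3 : En n y - E y = (Dn n y - D y) / (y - an n) + D y * (an n - a) / ((y - an n) * (y - a)) := by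
      rw [e1, e2, div_add_div _ _ n2 (mul_ne_zero n2 n1), div_sub_div _ _ n2 n1,
        div_eq_div_iff (mul_ne_zero n2 n1) (mul_ne_zero n2 (mul_ne_zero n2 n1))]
      ring
    rw [e3]
    refine (norm_add_le _ _).trans ?_
    rw [norm_div, norm_div, norm_mul, norm_mul]
    have g1 : ‖Dn n y - D y‖ ≤ ε1 := by
      rw [← dist_eq_norm, dist_comm]
      exact (h1 y hy).le
    have g2 : ‖an n - a‖ ≤ ε * δ ^ 2 / (8 * (B' + 1)) := by
      rw [← dist_eq_norm]
      exact h2.le.trans (min_le_right _ _)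
    have g3 : ‖D y‖ ≤ B' := (hB y hy).trans (le_max_left _ _)
    have k1 : ‖Dn n y - D y‖ / ‖y - an n‖ ≤ ε1 / (δ / 2) := by gcongr
    have k2 : ‖D y‖ * ‖an n - a‖ / (‖y - an n‖ * ‖y - a‖) ≤
        B' * (ε * δ ^ 2 / (8 * (B' + 1))) / (δ / 2 * δ) := by gcongr
    have k3 : ε1 / (δ / 2) = ε / 4 := by
      rw [hε1]
      field_simp
      norm_num
    have k4 : B' * (ε * δ ^ 2 / (8 * (B' + 1))) / (δ / 2 * δ) = (B' / (B' + 1)) * (ε / 4) := by
      field_simp
      ring
    have k5 : B' / (B' + 1) ≤ 1 := by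
      rw [div_le_one (by positivity)]
      linarith
    have k6 : B' / (B' + 1) * (ε / 4) ≤ 1 * (ε / 4) := by gcongr
    linarith
  intro y hy
  have hdc : DiffContOnCl ℂ (fun y => En n y - E y) (ball y0 r) := by
    refine DifferentiableOn.diffContOnCl ?_
    rw [closure_ball y0 hr.ne']
    exact (h3.sub hE).mono hcl
  have := Complex.norm_le_of_forall_mem_frontier_norm_le isBounded_ball hdc hbd (subset_closure hy)
  rw [dist_comm, dist_eq_norm]
  linarith

/-- **a function with many zeros in the limit** -/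
theorem mult_lim' [l.NeBot] {ι : Type*} (hU : IsOpen U) {c : ι → ℂ} {cn : α → ι → ℂ}
    (hcn : ∀ j, Tendsto (fun n => cn n j) l (𝓝 (c j)))
    (hinj : ∀ᶠ n in l, Function.Injective (cn n)) {D : ℂ → ℂ} {Dn : α → ℂ → ℂ}
    (hDn : ∀ᶠ n in l, DifferentiableOn ℂ (Dn n) U) (hlim : TendstoLocallyUniformlyOn Dn D l U)
    (s : Finset ι) (hc : ∀ j ∈ s, c j ∈ U) (h0 : ∀ᶠ n in l, ∀ j ∈ s, Dn n (cn n j) = 0) :
    ∃ (Q : ℂ → ℂ) (Qn : α → ℂ → ℂ), DifferentiableOn ℂ Q U ∧ (∀ᶠ n in l, DifferentiableOn ℂ (Qn n) U) ∧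
      TendstoLocallyUniformlyOn Qn Q l U ∧
      (∀ᶠ n in l, ∀ y ∈ U, Dn n y = (∏ j ∈ s, (y - cn n j)) * Qn n y) ∧
      ∀ y ∈ U, D y = (∏ j ∈ s, (y - c j)) * Q y := by
  classical
  induction s using Finset.induction_on with
  | empty =>
    refine ⟨D, Dn, hlim.differentiableOn hDn hU, hDn, hlim, ?_, ?_⟩
    · exact Eventually.of_forall fun n y _ => by simp
    · intro y _
      simp
  | insert a s ha ih =>
    obtain ⟨Q, Qn, h1, h2, h3, h4, h5⟩ := ih (fun j hj => hc j (Finset.mem_insert_of_mem hj))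
      (h0.mono fun n hn j hj => hn j (Finset.mem_insert_of_mem hj))
    have hcU : c a ∈ U := hc a (Finset.mem_insert_self _ _)
    have hcnU : ∀ᶠ n in l, cn n a ∈ U := (hcn a).eventually (hU.mem_nhds hcU)
    have hz : ∀ᶠ n in l, Qn n (cn n a) = 0 := by
      filter_upwards [h0, h4, hinj, hcnU] with n g1 g2 g3 g4
      have g5 := g2 _ g4
      rw [g1 a (Finset.mem_insert_self _ _)] at g5
      rcases mul_eq_zero.1 g5.symm with g6 | g6
      · exfalso
        rw [Finset.prod_eq_zero_iff] at g6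
        obtain ⟨j, hj, hj'⟩ := g6
        have : a = j := g3 (sub_eq_zero.1 hj')
        exact ha (this ▸ hj)
      · exact g6
    have hz0 : Q (c a) = 0 := by
      have ht : Tendsto (fun n => Qn n (cn n a)) l (𝓝 (Q (c a))) :=
        h3.tendsto_comp (h1.continuousOn.continuousWithinAt hcU) hcU
          (tendsto_nhdsWithin_iff.2 ⟨hcn a, hcnU⟩)
      exact tendsto_nhds_unique (ht.congr' hz) tendsto_const_nhds
    have hdE : DifferentiableOn ℂ (dslope Q (c a)) U :=
      (Complex.differentiableOn_dslope (hU.mem_nhds hcU)).2 h1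
    have hdEn : ∀ᶠ n in l, DifferentiableOn ℂ (dslope (Qn n) (cn n a)) U := by
      filter_upwards [h2, hcnU] with n g1 g2
      exact (Complex.differentiableOn_dslope (hU.mem_nhds g2)).2 g1
    have heq : ∀ (f : ℂ → ℂ) (b y : ℂ), f b = 0 → f y = (y - b) * dslope f b y := by
      intro f b y hb
      have := sub_smul_dslope f b y
      rw [hb, sub_zero, smul_eq_mul] at this
      exact this.symm
    have hE1 : ∀ y ∈ U, Q y = (y - c a) * dslope Q (c a) y := fun y _ => heq Q (c a) y hz0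
    have hE2 : ∀ᶠ n in l, ∀ y ∈ U, Qn n y = (y - cn n a) * dslope (Qn n) (cn n a) y := by
      filter_upwards [hz] with n g1 y _
      exact heq (Qn n) (cn n a) y g1
    refine ⟨dslope Q (c a), fun n => dslope (Qn n) (cn n a), hdE, hdEn,
      lim_div hU (hcn a) h1 hdE hdEn hE1 hE2 h3, ?_, ?_⟩
    · filter_upwards [h4, hE2] with n g1 g2 y hy
      rw [Finset.prod_insert ha, g1 y hy, g2 y hy]
      ring
    · intro y hy
      rw [Finset.prod_insert ha, h5 y hy, hE1 y hy]
      ring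

/-- **a function with many zeros in the limit** -/
theorem mult_lim [l.NeBot] {ι : Type*} [Fintype ι] (hU : IsOpen U) {c : ι → ℂ} {cn : α → ι → ℂ}
    (hc : ∀ j, c j ∈ U) (hcn : ∀ j, Tendsto (fun n => cn n j) l (𝓝 (c j)))
    (hinj : ∀ᶠ n in l, Function.Injective (cn n)) {D : ℂ → ℂ} {Dn : α → ℂ → ℂ}
    (hDn : ∀ᶠ n in l, DifferentiableOn ℂ (Dn n) U) (hlim : TendstoLocallyUniformlyOn Dn D l U)
    (h0 : ∀ᶠ n in l, ∀ j, Dn n (cn n j) = 0) :
    ∃ Q : ℂ → ℂ, DifferentiableOn ℂ Q U ∧ ∀ y ∈ U, D y = (∏ j, (y - c j)) * Q y := by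
  obtain ⟨Q, -, h1, -, -, -, h5⟩ := mult_lim' hU hcn hinj hDn hlim Finset.univ (fun j _ => hc j)
    (h0.mono fun n hn j _ => hn j)
  exact ⟨Q, h1, h5⟩

end IST4
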