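import Pool.Agent.PB.Rec

/-!
# ISO by rows: Laurent polynomials in several extra rows (helper4)

* `van`: the Vandermonde functional (nodes `nd M j = I j / (2M+1)`) which reads the coefficients of `EL w M a`;
* `PL w M xs c`: the Laurent polynomial with coefficients `c : List ℤ → ℂ` at the list of positions `xs`;
* `PL_perm`, `PL_le`, **`PL_coef`** (coefficients from the values on the segments `i [0,1]`).
-/

set_option autoImplicit false

noncomputable section

open Complex Filter Topology Set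
open Pool.Agent.PB.Rec (EL EL_coef EL_add EL_sub EL_le EL_inj)

namespace IST4

/-- the nodes -/
def nd (M : ℕ) (j : Fin (2 * M + 1)) : ℂ := I * (((j : ℝ) / (2 * M + 1) : ℝ) : ℂ)

/-- the set of the exponents -/
def ZI (M : ℕ) : Finset ℤ := Finset.Icc (-(M : ℤ)) M

/-- the Vandermonde functional -/
theorem van {w : ℝ} (hw : 0 < w) (M : ℕ) : ∃ lam : ℤ → Fin (2 * M + 1) → ℂ,
    ∀ a : ℤ → ℂ, ∀ k ∈ ZI M, ∑ j, lam k j * EL w M a (nd M j) = a k := by
  classical
  let F : ((Finset.Icc (-(M : ℤ)) M) → ℂ) →ₗ[ℂ] (Fin (2 * M + 1) → ℂ) :=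
    { toFun := fun c j => EL w M (fun k => if hk : k ∈ Finset.Icc (-(M : ℤ)) M then c ⟨k, hk⟩ else 0)
        (nd M j)
      map_add' := by
        intro c d
        funext j
        simp only [EL, Pi.add_apply]
        rw [← Finset.sum_add_distrib]
        refine Finset.sum_congr rfl fun k hk => ?_
        simp only [hk, dif_pos]
        ring
      map_smul' := by
        intro r c
        funext j
        simp only [EL, Pi.smul_apply, smul_eq_mul, RingHom.id_apply]
        rw [Finset.mul_sum]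
        refine Finset.sum_congr rfl fun k hk => ?_
        simp only [hk, dif_pos]
        ring }
  have hker : LinearMap.ker F = ⊥ := by
    rw [LinearMap.ker_eq_bot']
    intro c hc
    have h1 := EL_inj hw M (a := fun k => if hk : k ∈ Finset.Icc (-(M : ℤ)) M then c ⟨k, hk⟩ else 0)
      (fun j => congrFun hc j)
    funext ⟨k, hk⟩
    have h2 := h1 k hk
    simp only [hk, dif_pos] at h2
    exact h2
  obtain ⟨G, hG⟩ := F.exists_leftInverse_of_injective hker
  refine ⟨fun k j => if hk : k ∈ Finset.Icc (-(M : ℤ)) M then G (Pi.single j 1) ⟨k, hk⟩ else 0,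
    fun a k hk => ?_⟩
  have hk' : k ∈ Finset.Icc (-(M : ℤ)) M := hk
  set c : (Finset.Icc (-(M : ℤ)) M) → ℂ := fun k => a k with hc
  have e : F c = fun j => EL w M a (nd M j) := by
    funext j
    show EL w M _ _ = _
    unfold EL
    refine Finset.sum_congr rfl fun k hk => ?_
    simp only [hk, dif_pos, hc]
  have h1 : G (F c) = c := by
    have := LinearMap.congr_fun hG c
    simpa using this
  have h2 : F c = ∑ j, (EL w M a (nd M j)) • (Pi.single j (1 : ℂ) : Fin (2 * M + 1) → ℂ) := by
    rw [e]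
    funext i
    simp [Finset.sum_apply, Pi.single_apply]
  rw [h2, map_sum] at h1
  have h3 := congrFun h1 ⟨k, hk'⟩
  simp only [map_smul, Finset.sum_apply, Pi.smul_apply, smul_eq_mul] at h3
  simp only [hk', dif_pos]
  rw [← show c ⟨k, hk'⟩ = a k from rfl, ← h3]
  exact Finset.sum_congr rfl fun j _ => mul_comm _ _

/-- the Laurent polynomial in several rows -/
def PL (w : ℝ) (M : ℕ) : List ℂ → (List ℤ → ℂ) → ℂ
  | [], c => c []
  | x :: xs, c => ∑ k ∈ ZI M, PL w M xs (fun ks => c (k :: ks)) * cexp (I * w * k * x)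

theorem PL_nil (w : ℝ) (M : ℕ) (c : List ℤ → ℂ) : PL w M [] c = c [] := rfl

theorem PL_cons (w : ℝ) (M : ℕ) (x : ℂ) (xs : List ℂ) (c : List ℤ → ℂ) :
    PL w M (x :: xs) c = EL w M (fun k => PL w M xs (fun ks => c (k :: ks))) x := rfl

theorem PL_sub (w : ℝ) (M : ℕ) (xs : List ℂ) : ∀ (c d : List ℤ → ℂ),
    PL w M xs (fun ks => c ks - d ks) = PL w M xs c - PL w M xs d := by
  induction xs with
  | nil => intro c d; rfl
  | cons x xs ih =>
    intro c d
    rw [PL_cons, PL_cons, PL_cons, ← EL_sub]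
    unfold EL
    refine Finset.sum_congr rfl fun k _ => ?_
    beta_reduce
    rw [ih (fun ks => c (k :: ks)) (fun ks => d (k :: ks))]

theorem PL_sum {ι : Type} (w : ℝ) (M : ℕ) (xs : List ℂ) (S : Finset ι) (r : ι → ℂ) :
    ∀ (c : ι → List ℤ → ℂ),
    PL w M xs (fun ks => ∑ i ∈ S, r i * c i ks) = ∑ i ∈ S, r i * PL w M xs (c i) := by
  induction xs with
  | nil => intro c; rfl
  | cons x xs ih =>
    intro c
    have h : ∀ k : ℤ, PL w M xs (fun ks => ∑ i ∈ S, r i * c i (k :: ks)) =
        ∑ i ∈ S, r i * PL w M xs (fun ks => c i (k :: ks)) := fun k => ih (fun i ks => c i (k :: ks))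
    simp only [PL, h]
    rw [Finset.sum_congr rfl fun k _ => Finset.sum_mul _ _ _, Finset.sum_comm]
    refine Finset.sum_congr rfl fun i _ => ?_
    rw [Finset.mul_sum]
    exact Finset.sum_congr rfl fun k _ => by ring

theorem PL_const (w : ℝ) (M : ℕ) (xs : List ℂ) (r : ℂ) (c : List ℤ → ℂ) :
    PL w M xs (fun ks => r * c ks) = r * PL w M xs c := by
  have h := PL_sum (ι := Unit) w M xs {()} (fun _ => r) (fun _ => c)
  simpa using h

/-- only the coefficients in the range count -/
theorem PL_congr (w : ℝ) (M : ℕ) (xs : List ℂ) : ∀ {c d : List ℤ → ℂ},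
    (∀ ks : List ℤ, ks.length = xs.length → (∀ k ∈ ks, k ∈ ZI M) → c ks = d ks) →
    PL w M xs c = PL w M xs d := by
  induction xs with
  | nil => intro c d h; exact h [] rfl (by simp)
  | cons x xs ih =>
    intro c d h
    simp only [PL]
    refine Finset.sum_congr rfl fun k hk => ?_
    rw [ih (c := fun ks => c (k :: ks)) (d := fun ks => d (k :: ks)) fun ks h1 h2 =>
      h (k :: ks) (by simp [h1]) (by
        intro k' hk'
        rcases List.mem_cons.1 hk' with rfl | h'
        · exact hk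
        · exact h2 k' h')]

theorem PL_swap (w : ℝ) (M : ℕ) (x y : ℂ) (xs : List ℂ) {c : List ℤ → ℂ}
    (hc : ∀ k l ks, c (k :: l :: ks) = c (l :: k :: ks)) :
    PL w M (x :: y :: xs) c = PL w M (y :: x :: xs) c := by
  simp only [PL, Finset.sum_mul]
  rw [Finset.sum_comm]
  refine Finset.sum_congr rfl fun k _ => Finset.sum_congr rfl fun l _ => ?_
  have : (fun ks => c (l :: k :: ks)) = fun ks => c (k :: l :: ks) := funext fun ks => hc l k ks
  rw [this]
  ring

theorem PL_perm (w : ℝ) (M : ℕ) {xs ys : List ℂ} (h : xs.Perm ys) : ∀ {c : List ℤ → ℂ},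
    (∀ ks ls : List ℤ, ks.Perm ls → c ks = c ls) → PL w M xs c = PL w M ys c := by
  induction h with
  | nil => intro c _; rfl
  | cons x _ ih =>
    intro c hc
    simp only [PL]
    refine Finset.sum_congr rfl fun k _ => ?_
    rw [ih (c := fun ks => c (k :: ks)) fun ks ls h => hc _ _ (h.cons k)]
  | swap x y l =>
    intro c hc
    exact PL_swap w M y x l fun k l ks => hc _ _ (List.Perm.swap l k ks)
  | trans _ _ ih1 ih2 =>
    intro c hc
    rw [ih1 hc, ih2 hc]

/-- the bound of a Laurent polynomial -/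
theorem PL_le {w : ℝ} (M : ℕ) {Y : ℝ} (xs : List ℂ) (hx : ∀ x ∈ xs, |x.im| ≤ Y) : ∀ {c : List ℤ → ℂ} {A : ℝ},
    (∀ ks : List ℤ, ks.length = xs.length → (∀ k ∈ ks, k ∈ ZI M) → ‖c ks‖ ≤ A) →
    ‖PL w M xs c‖ ≤ ((2 * M + 1) * Real.exp (|w| * M * Y)) ^ xs.length * A := by
  induction xs with
  | nil => intro c A h; simpa [PL_nil] using h [] rfl (by simp)
  | cons x xs ih =>
    intro c A h
    have hxs : ∀ x ∈ xs, |x.im| ≤ Y := fun y hy => hx y (List.mem_cons_of_mem _ hy)
    have hx0 : |x.im| ≤ Y := hx x (List.mem_cons_self)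
    rw [PL_cons]
    have h1 := EL_le (w := w) (K := M) (a := fun k => PL w M xs (fun ks => c (k :: ks)))
      (A := ((2 * M + 1) * Real.exp (|w| * M * Y)) ^ xs.length * A) (fun k hk =>
        ih hxs (c := fun ks => c (k :: ks)) fun ks h1 h2 => h (k :: ks) (by simp [h1]) (by
          intro k' hk'
          rcases List.mem_cons.1 hk' with rfl | h'
          · exact hk
          · exact h2 k' h')) x
    refine h1.trans ?_
    have hA : 0 ≤ ((2 * M + 1) * Real.exp (|w| * M * Y)) ^ xs.length * A := by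
      refine (norm_nonneg _).trans (ih hxs (c := fun ks => c (0 :: ks)) fun ks h1 h2 =>
        h (0 :: ks) (by simp [h1]) ?_)
      intro k' hk'
      rcases List.mem_cons.1 hk' with rfl | h'
      · simp [ZI]
      · exact h2 k' h'
    have h2 : (2 * (M : ℝ) + 1) * Real.exp (|w| * M * |x.im|) ≤ (2 * M + 1) * Real.exp (|w| * M * Y) := by
      gcongr
    calc _ ≤ (2 * (M : ℝ) + 1) * Real.exp (|w| * M * Y) *
          (((2 * M + 1) * Real.exp (|w| * M * Y)) ^ xs.length * A) := mul_le_mul_of_nonneg_right h2 hA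
      _ = _ := by
        rw [List.length_cons, pow_succ]
        ring

/-- **Coefficients from the values on the segments.** -/
theorem PL_coef {w : ℝ} (hw : 0 < w) (M : ℕ) : ∃ V : ℝ, 0 < V ∧ ∀ (n : ℕ) (c : List ℤ → ℂ) (B : ℝ),
    (∀ ts : List ℝ, ts.length = n → (∀ t ∈ ts, t ∈ Icc (0 : ℝ) 1) →
      ‖PL w M (ts.map fun t : ℝ => I * (t : ℂ)) c‖ ≤ B) →
    ∀ ks : List ℤ, ks.length = n → (∀ k ∈ ks, k ∈ ZI M) → ‖c ks‖ ≤ V ^ n * B := by
  obtain ⟨V, hV0, hV⟩ := EL_coef hw M
  refine ⟨V, hV0, fun n => ?_⟩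
  induction n with
  | zero =>
    intro c B h ks hks _
    have : ks = [] := List.length_eq_zero_iff.1 hks
    subst this
    simpa [PL] using h [] rfl (by simp)
  | succ n ih =>
    intro c B h ks hks hk
    obtain ⟨k, ks', rfl⟩ : ∃ k ks', ks = k :: ks' := by
      cases ks with
      | nil => simp at hks
      | cons k ks' => exact ⟨k, ks', rfl⟩
    have hks' : ks'.length = n := by simpa using hks
    have hk0 : k ∈ ZI M := hk k List.mem_cons_self
    have h1 := ih (fun ls => c (k :: ls)) (V * B) (fun ts hts htm => ?_) ks' hks'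
      (fun k' hk' => hk k' (List.mem_cons_of_mem _ hk'))
    · calc _ ≤ V ^ n * (V * B) := h1
        _ = _ := by ring
    · refine hV (fun k => PL w M (ts.map fun t : ℝ => I * (t : ℂ)) (fun ls => c (k :: ls))) B ?_ k hk0
      intro t ht
      have := h (t :: ts) (by simp [hts]) (by
        intro s hs
        rcases List.mem_cons.1 hs with rfl | h'
        · exact ht
        · exact htm s h')
      simpa [PL_cons] using this

end IST4
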